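import Pool.Agent.helper84.VD.SpecB5

/-! Row SCM of project VD (MP_07c750_an): sections for the class of metrics, constants as large as we like. -/

set_option autoImplicit false

open scoped ContDiff Topology InnerProductSpace ENNReal
open MeasureTheory Filter Set

namespace Pool.Agent.VD

noncomputable section

theorem SCM_proof (hSSE : SSE_stmt) (hSGE : SGE_stmt) : SCM_stmt := by
  intro m Γ _ _ K k B η C0 hFdK hη
  obtain ⟨CG, hCG, hG⟩ := hSGE (m + 1) Γ K K k B η hFdK hη (Subset.refl _) hFdK.compact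
  obtain ⟨c, C', e0, e1, hc, hC', hS⟩ := hSSE m CG (max C0 1) hCG
  by_cases hne : ∃ (G : V (m + 1) → V (m + 1) →L[ℝ] V (m + 1)) (Φ : ℝ → P (m + 1) → P (m + 1)), Cls Γ K k B G ∧ IsFlow G Φ
  · obtain ⟨G₀, Φ₀, hcl, hfl⟩ := hne
    obtain ⟨κ₀, hκ₀⟩ := hS Γ K G₀ Φ₀ (dP Γ η) (hG G₀ Φ₀ hcl hfl)
    have he : 0 < e1 := by
      have h1 := hκ₀.el
      have h2 := hκ₀.C1
      have h3 := hκ₀.ep
      nlinarith
    exact ⟨c, C', e0, e1, hc, (le_max_left _ _).trans hC', (le_max_right _ _).trans hC', hκ₀.ep, he, fun G Φ h1 h2 => hS Γ K G Φ (dP Γ η) (hG G Φ h1 h2)⟩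
  · exact ⟨1, max C0 1, 1, 1, one_pos, le_max_left _ _, le_max_right _ _, one_pos, one_pos, fun G Φ h1 h2 => absurd ⟨G, Φ, h1, h2⟩ hne⟩

end

end Pool.Agent.VD
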