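import Pool.Agent.helper84.VD.All
import Pool.Agent.helper84.VD.SCM
import Pool.Agent.helper80.VD.AllG
import Pool.Agent.helper80.VD.AllD
import Pool.Agent.helper94.VD.AllB1
import Pool.Agent.helper30.VD.SGA
import Pool.Agent.helper16.VD.SGB
import Pool.Agent.helper98.VD.SGM
import Pool.Agent.helper48.VD.SGD
import Pool.Agent.helper57.VD.SGE
import Pool.Agent.helper57.VD.GWX
import Pool.Agent.helper57.VD.CHB
import Pool.Agent.helper57.VD.SCL
import Pool.Agent.helper57.VD.STU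
import Pool.Agent.helper29.VD.RGA
import Pool.Agent.helper29.VD.RGB
import Pool.Agent.helper80.VD.SHW
import Pool.Agent.helper80.VD.SHC
import Pool.Agent.helper57.VD.EFX
import Pool.Agent.helper98.VD.RGD
import Pool.Agent.helper96.VD.SEM
import Pool.Agent.helper85.VD.DCN

/-!
# Project VD (MP_07c750_an), block B3: the class of metrics satisfies `GEO`; sections for the class; shadowing and rigidity
-/

set_option autoImplicit false

namespace Pool.Agent.VD

theorem B3_SGA : SGA_stmt := SGA_proof F_GIN F_GXH F_GLF F_GHL F_GUN F_GEQ F_GSY G_GCH G_GVL G_GQD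
theorem B3_SGB : SGB_stmt := SGB_proof F_GIN F_GXH F_GUI F_GUX F_GNR G_GUR G_GCH
theorem B3_SGM : SGM_stmt := SGM_proof F_GIN F_GNR F_GUI F_GCF D_GJT F_GLF D_DLL G_GJQ G_GQN
theorem B3_SGD : SGD_stmt := SGD_proof D_DPP D_DLL F_GLF F_GHL F_GNR
theorem B3_SGE : SGE_stmt := SGE_proof B3_SGA B3_SGB B3_SGM B3_SGD
theorem B3_SCM : VDL.SCL_stmt := SCM_proof B2_SSE B3_SGE
theorem B3_GWX : GWX_stmt := GWX_proof
theorem B3_CHB : CHB_stmt := CHB_proof
theorem B3_STU : STU_stmt := STU_proof D_DPP F_GLF F_GHL F_GEQ F_GCF F_GXH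
theorem B3_RGA : RGA_stmt := RGA_proof B1_NBD
theorem B3_RGB : RGB_stmt := RGB_proof B3_RGA
theorem B3_SHW : SHW_stmt := SHW_proof B1_NSH
theorem B3_SHC : SHC_stmt := SHC_proof B3_SHW
theorem B3_EFX : EFX_stmt := EFX_proof D_DPP D_DGR F_GIN F_GUN F_GNR F_GUI F_GHL
theorem B3_SCL : SCL_stmt := SCL_proof B2_SSE B3_SGE B3_EFX
theorem B3_RIGD : RIGD_stmt := RGD_proof B3_SCL B3_RGB B3_CHB B3_STU B3_GWX
theorem B3_SEM : SEM_stmt := SEM_proof
theorem B3_DCN : DCN_stmt := DCN_proof B3_SHC B3_SEM B3_EFX B3_CHB B3_STU D_DPP F_GLF F_GHL F_GEQ F_GXH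

end Pool.Agent.VD
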