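import Pool.Agent.helper80.VD.Defs
import Pool.Agent.helper93.VD.SpecB1

/-!
# Project VD (MP_07c750_an), block B: the interface of the SECTIONS (block B2)

Transversal space: `Z m = W m × W m`, `m = d - 1`, a point `a = (j, w)`, `QQ (j, w) = ⟪j, w⟫` (helper93/VD/SpecB1.lean).
-/

set_option autoImplicit false

open scoped ContDiff Topology InnerProductSpace ENNReal
open MeasureTheory Filter Set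

namespace Pool.Agent.VD

noncomputable section

/-- the unit shell -/
def Shl {d : ℕ} (G : V d → V d →L[ℝ] V d) : Set (P d) := {z | nrm G z = 1}

/-- SECTIONS of a flow `Φ` on the shell `S` (`d` = invariant distance): `κ z a`, `z ∈ S`, `a = (j, w)`, `‖a‖ ≤ e1`; `e0` = radius of the domain of the Poincare maps. No group appears: `d` is invariant. `a.1 = 0` are the points of the shell with the same base point as `z`. -/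
structure SEC {m : ℕ} (c C e0 e1 : ℝ) (S : Set (P (m + 1))) (d : P (m + 1) → P (m + 1) → ℝ) (Φ : ℝ → P (m + 1) → P (m + 1)) (κ : P (m + 1) → Z m → P (m + 1)) : Prop where
  cp : 0 < c
  C1 : 1 ≤ C
  ep : 0 < e0
  el : 4 * C * e0 ≤ e1
  zero : ∀ z ∈ S, κ z 0 = z
  mem : ∀ z ∈ S, ∀ a, ‖a‖ ≤ e1 → κ z a ∈ S
  bas : ∀ z ∈ S, ∀ a, ‖a‖ ≤ e1 → ((κ z a).1 = z.1 ↔ a.1 = 0)
  ver : ∀ z ∈ S, ∀ u ∈ S, u.1 = z.1 → d z u ≤ e0 → ∃ w : W m, u = κ z (0, w) ∧ ‖w‖ ≤ C * d z u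
  cmp : ∀ z ∈ S, ∀ a b, ‖a‖ ≤ e1 → ‖b‖ ≤ e1 → d (κ z a) (κ z b) ≤ C * ‖a - b‖
  box : ∀ z ∈ S, ∀ p ∈ S, d z p ≤ e0 → ∃ (s : ℝ) (a : Z m), p = Φ s (κ z a) ∧ |s| ≤ C * d z p ∧ ‖a‖ ≤ C * d z p
  inj : ∀ z ∈ S, ∀ (a a' : Z m) (s s' : ℝ), ‖a‖ ≤ e1 → ‖a'‖ ≤ e1 → |s| ≤ e1 → |s'| ≤ e1 → ‖a - a'‖ + |s - s'| ≤ C * d (Φ s (κ z a)) (Φ s' (κ z a'))
  pmap : ∀ z ∈ S, ∀ z' ∈ S, ∀ t : ℝ, 1 / 2 ≤ t → t ≤ 2 → d (Φ t z) z' ≤ e0 → ∃ (F : Z m → Z m) (τ : Z m → ℝ), HYP c C e0 F ∧ ‖F 0‖ ≤ C * d (Φ t z) z' ∧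
    (∀ a, ‖a‖ < e0 → |(fderiv ℝ F a).det| = 1) ∧ ∀ a, ‖a‖ ≤ e0 → Φ (τ a) (κ z a) = κ z' (F a) ∧ |τ a - t| ≤ C * (‖a‖ ^ 2 + d (Φ t z) z') ∧ ∀ b, ‖b‖ ≤ e0 → |τ a - τ b| ≤ C * ‖a - b‖ ∧ ‖F a - F b‖ ≤ C * ‖a - b‖

end

end Pool.Agent.VD
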