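import Pool.Agent.helper26.VD.SC1
import Pool.Agent.helper17.VD.SIM
import Pool.Agent.helper29.VD.SDT
import Pool.Agent.helper35.VD.SFE
import Pool.Agent.helper89.VD.SFD
import Pool.Agent.helper30.VD.SFI
import Pool.Agent.helper59.VD.SKA
import Pool.Agent.helper26.VD.STH
import Pool.Agent.helper85.VD.SPR
import Pool.Agent.helper78.VD.SPQ
import Pool.Agent.helper98.VD.SSE
import Pool.Agent.helper80.VD.AllF

/-!
# Project VD (MP_07c750_an), block B2 (sections of the geodesic flow): ALL ROWS ARE CLOSED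
-/

set_option autoImplicit false

namespace Pool.Agent.VD

theorem B2_SC1 : SC1_stmt := SC1_proof
theorem B2_SIM : SIM_stmt := SIM_proof
theorem B2_SDT : SDT_stmt := SDT_proof
theorem B2_SFE : SFE_stmt := SFE_proof
theorem B2_SFD : SFD_stmt := SFD_proof F_GIN
theorem B2_SFI : SFI_stmt := SFI_proof B2_SFD
theorem B2_SKA : SKA_stmt := SKA_proof B2_SC1 B2_SIM B2_SFD B2_SFI
theorem B2_STH : STH_stmt := STH_proof B2_SC1 B2_SIM B2_SFD B2_SFI
theorem B2_SPR : SPR_stmt := SPR_proof B2_SC1 B2_SIM B2_SFD B2_SFI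
theorem B2_SPQ : SPQ_stmt := SPQ_proof B2_SC1 B2_SFI
theorem B2_SSE : SSE_stmt := SSE_proof B2_SC1 B2_SFE B2_SFI B2_SKA B2_STH B2_SPR B2_SPQ B2_SDT

end Pool.Agent.VD
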