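import Pool.Agent.helper84.VD.All3
import Pool.Agent.helper82.VD.AllH
import Pool.Agent.helper94.VD.AllDPR
import Pool.Agent.helper73.VD.DLP
import Pool.Agent.helper18.VD.YDB
import Pool.Agent.helper9.VD.KUB
import Pool.Agent.helper16.VD.UBR
import Pool.Agent.helper48.VD.CRX
import Pool.Agent.helper49.VD.DCM
import Pool.Agent.helper63.VD.BDV
import Pool.Agent.helper51.VD.DWT
import Pool.Agent.helper20.VD.QZC
import Pool.Agent.helper69.VD.SPT
import Pool.Agent.helper30.VD.VBY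
import Pool.Agent.helper38.VD.UVL
import Pool.Agent.helper75.VD.DOBR

/-!
# Project VD (MP_07c750_an), block B3: compression of chains of big steps to discs, assembly (input: `A9DD`, the density of the big step)
-/

set_option autoImplicit false

namespace Pool.Agent.VD

theorem B5_DLP : DLP_stmt := DLP_proof
theorem B5_YDB : YDB_stmt := YDB_proof
theorem B5_UBR : UBR_stmt := UBR_proof
theorem B5_QZC : QZC_stmt := QZC_proof
theorem B5_SPT : SPT_stmt := SPT_proof
theorem B5_CRX : CRX_stmt := CRX_proof DCH_proof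
theorem B5_DCM : DCM_stmt := DCM_proof B5_CRX B5_DLP
theorem B5_BDV : BDV_stmt := BDV_proof VDG.VLP_t
theorem B5_KUB (hA9DD : A9DD_stmt) : KUB_stmt := KUB_proof hA9DD B5_YDB F_GLF F_GSY
theorem B5_DWT (hA9DD : A9DD_stmt) : DWT_stmt := DWT_proof (B5_KUB hA9DD) B5_DCM DPR_all B5_BDV B3_SGE B3_EFX F_GXH

theorem B5_VBY : VBY_stmt := VBY_proof D_DPP (UVL_proof F_GIN F_GXH F_GNR) F_GLF F_GHL F_GMP D_DFD
theorem B5_DOB (hA9DD : A9DD_stmt) : VDL.DOB_stmt := DOBR_proof B3_DCN (B5_DWT hA9DD) B5_QZC B5_SPT B5_UBR B5_VBY B3_EFX D_DPP F_GLF F_GHL F_GXH D_DFD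

end Pool.Agent.VD
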