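import Pool.Agent.helper84.VD.DefsB

/-!
# Project VD (MP_07c750_an), block B2: SECTIONS of the geodesic flow, rows `vd:XXX`

At a point `z = (x, ξ)` of the unit shell with `x ∈ K` and a frame `e : ℝ^m → V` (`g(e a, e b) = ⟪a, b⟫`, `⟪ξ, e a⟫ = 0`; `m = d - 1`) the SECTION is the hypersurface `⟪ξ, x' - x⟫ = 0` of the shell, with the LINEAR coordinates `LL z (p - z) = (j, w)`, `j = e* G(x) (x' - x)`, `w = e* (ξ' - ξ - C_x(x' - x, ·)ᵀ ξ)`.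
On the section `ξ' dx' = Σ p_i dj_i`, `p = e* ξ' = w + (symmetric matrix) j`: the coordinates `(j, w)` are canonical, so the Poincare maps are exactly symplectic. `QQ (LL z v) = Qc z v - ⟪ξ, v.1⟫ dH(v)`. The chart `κ` = inverse of these coordinates. All the geometry which is used is in the structure `GEO` (constants `C` uniform in the class of metrics; row SGE, SpecB2g).

RULES. Row `vd:XXX`: file `Pool/Agent/<seat>/VD/XXX.lean`, `import Pool.Agent.helper84.VD.SpecB2`, `set_option autoImplicit false`, namespace `Pool.Agent.VD`, `noncomputable section`, auxiliary lemmas prefixed `XXX_`, theorem `XXX_proof (h..) : XXX_stmt` (rows listed in `from` may be used as hypotheses `(h : YYY_stmt)`).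
No `convert`, `congr!`, `native_decide`, no double quotes, no `private`, no command starting with a sharp sign. Constants are existential: choose them as large (small) as you like.
-/

set_option autoImplicit false

open scoped ContDiff Topology InnerProductSpace ENNReal
open MeasureTheory Filter Set

namespace Pool.Agent.VD

noncomputable section

/-! ## Definitions -/

/-- the part of the unit shell over `K` -/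
def SK {d : ℕ} (K : Set (V d)) (G : V d → V d →L[ℝ] V d) : Set (P d) := {z | z.1 ∈ K ∧ nrm G z = 1}

/-- `(t, p) ↦ γ Φ_t(p)` -/
def MM {d : ℕ} {Γ : Type} [Group Γ] [MulAction Γ (V d)] (Φ : ℝ → P d → P d) (γ : Γ) (q : ℝ × P d) : P d := lft γ (Φ q.1 q.2)

/-- what is used of the geometry; `D` = the invariant distance on phase space -/
structure GEO {d : ℕ} (Γ : Type) [Group Γ] [MulAction Γ (V d)] (K : Set (V d)) (C : ℝ) (G : V d → V d →L[ℝ] V d) (Φ : ℝ → P d → P d) (D : P d → P d → ℝ) : Prop where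
  C1 : 1 ≤ C
  met : IsMetric G
  fl : IsFlow G Φ
  hs : ContDiff ℝ ∞ (Ham G)
  dif : ∀ γ : Γ, ContDiff ℝ ∞ (MM Φ γ : ℝ × P d → P d)
  l1 : ∀ p : P d, lft (1 : Γ) p = p
  lm : ∀ (γ γ' : Γ) (p : P d), lft (γ * γ') p = lft γ (lft γ' p)
  lf : ∀ (γ : Γ) (t : ℝ) (p : P d), Φ t (lft γ p) = lft γ (Φ t p)
  hm : ∀ (γ : Γ) (t : ℝ) (p : P d), nrm G (MM Φ γ (t, p)) = nrm G p ∧ Ham G (MM Φ γ (t, p)) = Ham G p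
  cov : ∀ p : P d, nrm G p = 1 → ∃ γ : Γ, lft γ p ∈ SK K G
  wl : ∀ p : P d, IsLinearMap ℝ (Wc G p)
  ws : ∀ x ξ u u' : V d, ⟪ChT G x u ξ, u'⟫_ℝ = ⟪ChT G x u' ξ, u⟫_ℝ
  dh : ∀ p v : P d, fderiv ℝ (Ham G) p v = ⟪Wc G p v, vel G p⟫_ℝ
  ox : ∀ p v : P d, omg v (XH G p) = fderiv ℝ (Ham G) p v
  wx : ∀ p : P d, Wc G p (XH G p) = 0
  mx : ∀ (γ : Γ) (t : ℝ) (p : P d), fderiv ℝ (MM Φ γ) (t, p) (1, 0) = XH G (MM Φ γ (t, p))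
  om : ∀ (γ : Γ) (t : ℝ) (p v w : P d), omg (fderiv ℝ (MM Φ γ) (t, p) (0, v)) (fderiv ℝ (MM Φ γ) (t, p) (0, w)) = omg v w
  al : ∀ (γ : Γ) (t : ℝ) (p v : P d), fderiv ℝ (Ham G) p v = 0 → ⟪(MM Φ γ (t, p)).2, (fderiv ℝ (MM Φ γ) (t, p) (0, v)).1⟫_ℝ = ⟪p.2, v.1⟫_ℝ
  b0 : ∀ z ∈ SK K G, ‖z.2‖ ≤ C ∧ ‖G z.1‖ ≤ C ∧ ‖IG G z.1‖ ≤ C ∧ (∀ u : V d, ‖u‖ ^ 2 ≤ C * ⟪G z.1 u, u⟫_ℝ) ∧ ∀ v : P d, ‖Wc G z v‖ ≤ C * ‖v‖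
  bh : ∀ z ∈ SK K G, ∀ p q : P d, ‖p - z‖ ≤ 1 → ‖q - z‖ ≤ 1 → ‖fderiv ℝ (Ham G) p‖ ≤ C ∧ ‖fderiv ℝ (Ham G) p - fderiv ℝ (Ham G) q‖ ≤ C * ‖p - q‖
  bq : ∀ z ∈ SK K G, ∀ p v : P d, ‖p - z‖ ≤ 1 → |Qc G p v - Qc G z v| ≤ C * ‖p - z‖ * ‖v‖ ^ 2
  bm : ∀ γ : Γ, ∀ z ∈ SK K G, ∀ z' ∈ SK K G, ∀ t : ℝ, |t| ≤ 3 → ‖MM Φ γ (t, z) - z'‖ ≤ 1 / C → ∀ q q' : ℝ × P d, ‖q - (t, z)‖ ≤ 1 / C → ‖q' - (t, z)‖ ≤ 1 / C →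
    ‖fderiv ℝ (MM Φ γ) q‖ ≤ C ∧ ‖fderiv ℝ (MM Φ γ) q - fderiv ℝ (MM Φ γ) q'‖ ≤ C * ‖q - q'‖
  jq : ∀ γ : Γ, ∀ z ∈ SK K G, ∀ t : ℝ, 1 / 4 ≤ t → t ≤ 3 → ∀ p v : P d, nrm G p = 1 → ‖p - z‖ ≤ 1 / C → fderiv ℝ (Ham G) p v = 0 →
    Qc G p v + ‖v‖ ^ 2 / C - C * ⟪p.2, v.1⟫_ℝ ^ 2 ≤ Qc G (MM Φ γ (t, p)) (fderiv ℝ (MM Φ γ) (t, p) (0, v))
  d0 : ∀ p q : P d, 0 ≤ D p q ∧ D p p = 0 ∧ D p q = D q p
  dt : ∀ p q r : P d, D p r ≤ D p q + D q r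
  di : ∀ (γ : Γ) (p q : P d), D (lft γ p) (lft γ q) = D p q
  d1 : ∀ z ∈ SK K G, ∀ p q : P d, ‖p - z‖ ≤ 1 → ‖q - z‖ ≤ 1 → D p q ≤ C * ‖p - q‖
  d2 : ∀ z ∈ SK K G, ∀ p q : P d, ‖p - z‖ ≤ 1 / C → D p q ≤ 1 / C → ‖p - q‖ ≤ C * D p q

/-- frames of the hyperplane `⟪ξ, ·⟫ = 0` -/
structure Frm {m : ℕ} (G : V (m + 1) → V (m + 1) →L[ℝ] V (m + 1)) (z : P (m + 1)) (e : W m →L[ℝ] V (m + 1)) : Prop where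
  on : ∀ a b : W m, ⟪G z.1 (e a), e b⟫_ℝ = ⟪a, b⟫_ℝ
  ort : ∀ a : W m, ⟪z.2, e a⟫_ℝ = 0

/-- the linear coordinates -/
def LL {m : ℕ} (G : V (m + 1) → V (m + 1) →L[ℝ] V (m + 1)) (z : P (m + 1)) (e : W m →L[ℝ] V (m + 1)) (v : P (m + 1)) : Z m :=
  (ContinuousLinearMap.adjoint e (G z.1 v.1), ContinuousLinearMap.adjoint e (Wc G z v))

/-- `C^(1,1)` maps on the closed ball of radius `r` around `a0` -/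
structure C11 {A B : Type} [NormedAddCommGroup A] [NormedSpace ℝ A] [NormedAddCommGroup B] [NormedSpace ℝ B] (M r : ℝ) (a0 : A) (f : A → B) : Prop where
  dif : ∀ a, ‖a - a0‖ ≤ r → DifferentiableAt ℝ f a
  bd : ∀ a, ‖a - a0‖ ≤ r → ‖fderiv ℝ f a‖ ≤ M
  lip : ∀ a b, ‖a - a0‖ ≤ r → ‖b - a0‖ ≤ r → ‖fderiv ℝ f a - fderiv ℝ f b‖ ≤ M * ‖a - b‖

/-- the chart at `z` -/
structure KC {m : ℕ} (C r : ℝ) (G : V (m + 1) → V (m + 1) →L[ℝ] V (m + 1)) (z : P (m + 1)) (e : W m →L[ℝ] V (m + 1)) (κ : Z m → P (m + 1)) : Prop where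
  c11 : C11 C r 0 κ
  zero : κ 0 = z
  on : ∀ a, ‖a‖ ≤ r → nrm G (κ a) = 1 ∧ (κ a).1 = z.1 + e a.1 ∧ LL G z e (κ a - z) = a
  un : ∀ q : P (m + 1), nrm G q = 1 → ‖q - z‖ ≤ r / C → ⟪z.2, q.1 - z.1⟫_ℝ = 0 → κ (LL G z e (q - z)) = q

/-! ## 1. Calculus (PURE) -/

/-- **Row SC1** (`C^(1,1)` calculus; short-medium; PURE). (1) mean value inequality on the closed ball (convex); second part for `x ↦ f x - fderiv f b x`, whose derivative is bounded by `M ‖a - b‖` on the segment. (2) `fderiv (g ∘ f) a = fderiv g (f a) ∘ fderiv f a`, `‖f a - f a0‖ ≤ M ‖a - a0‖ ≤ r`. (3) `HasFDerivAt.prodMk`, the norm of the product is the maximum. (4), (5) clear. -/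
def SC1_stmt : Prop := ∀ (A B B' : Type) [NormedAddCommGroup A] [NormedSpace ℝ A] [NormedAddCommGroup B] [NormedSpace ℝ B] [NormedAddCommGroup B'] [NormedSpace ℝ B'] (M r : ℝ) (a0 : A), 1 ≤ M → 0 < r →
  (∀ f : A → B, C11 M r a0 f → ∀ a b : A, ‖a - a0‖ ≤ r → ‖b - a0‖ ≤ r → ‖f a - f b‖ ≤ M * ‖a - b‖ ∧ ‖f a - f b - fderiv ℝ f b (a - b)‖ ≤ M * ‖a - b‖ ^ 2) ∧
  (∀ (f : A → B) (g : B → B'), C11 M r a0 f → C11 M r (f a0) g → C11 (M ^ 3 + M ^ 2) (r / M) a0 (fun a => g (f a))) ∧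
  (∀ (f : A → B) (g : A → B'), C11 M r a0 f → C11 M r a0 g → C11 M r a0 (fun a => (f a, g a))) ∧
  (∀ (L : A →L[ℝ] B) (b : B), ‖L‖ ≤ M → C11 M r a0 (fun a => L a + b)) ∧
  ∀ (f : A → B) (M' r' : ℝ), C11 M r a0 f → M ≤ M' → r' ≤ r → C11 M' r' a0 f

/-- **Row SIM** (IMPLICIT FUNCTION, scalar; medium; PURE). `ρ = min r (1/(2M²))`: `∂_t g ≥ 1/M - Mρ ≥ 1/(2M)` for `‖(t, a) - (t0, a0)‖ ≤ ρ` (product norm = maximum), so `g(·, a)` is strictly increasing on `|t - t0| ≤ ρ` with slope at least `1/(2M)`. `|g(t0, a)| ≤ r'(1 + 2M) ≤ ρ/(8M)` for `‖a - a0‖ ≤ 2r'`: a unique zero `τ a`, `|τ a - t0| ≤ 2M |g(t0, a)| ≤ ρ/4`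
(`τ a = t0` for the other `a`). Lipschitz on the ball `2r'`: `|τ a - τ b|/(2M) ≤ |g(τ a, a) - g(τ b, a)| = |g(τ b, b) - g(τ b, a)| ≤ M ‖a - b‖`. Derivative at `a` in the open ball `2r'`: `0 = g(τ b, b) - g(τ a, a) = ∂_t g (τ b - τ a) + ∂_a g (b - a) + o(|τ b - τ a| + ‖b - a‖)` and the Lipschitz bound, so `Dτ = -(∂_t g)⁻¹ ∂_a g` at `(τ a, a)`;
its bound and its Lipschitz constant follow from those of `fderiv g`, of `τ` and of `x ↦ x⁻¹` on `x ≥ 1/(2M)`. -/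
def SIM_stmt : Prop := ∀ M r : ℝ, 1 ≤ M → 0 < r → ∃ M' r' ρ : ℝ, 1 ≤ M' ∧ 0 < r' ∧ r' ≤ r ∧ 0 < ρ ∧ ρ ≤ r ∧ ∀ (A : Type) [NormedAddCommGroup A] [NormedSpace ℝ A] (g : ℝ × A → ℝ) (t0 : ℝ) (a0 : A),
  C11 M r (t0, a0) g → 1 / M ≤ fderiv ℝ g (t0, a0) (1, 0) → |g (t0, a0)| ≤ r' → ∃ τ : A → ℝ, C11 M' r' a0 τ ∧ ∀ a, ‖a - a0‖ ≤ r' →
    |τ a - t0| ≤ ρ ∧ g (τ a, a) = 0 ∧ |τ a - t0| ≤ M' * |g (t0, a)| ∧ ∀ t, |t - t0| ≤ ρ → g (t, a) = 0 → t = τ a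

/-- **Row SDT** (symplectic maps; short-medium; PURE). With `J (j, w) = (w, -j)`: `omg v (J v) = ‖v.1‖² + ‖v.2‖²`, so `‖v‖² ≤ omg (L v) (L (J v)) ≤ 2 ‖L v‖ ‖L (J v)‖ ≤ 2 M ‖L v‖ ‖v‖`. Determinant: `L* J L = J` (adjoints for the Euclidean structure; or matrices: `Matrix.det_mul`, `det J ≠ 0`), so `(det L)² = 1`
(`ContinuousLinearMap.det`, `LinearMap.det_toMatrix`; on `W m × W m` use the basis `(OrthonormalBasis..).toBasis.prod`; also `CRO.DT1` (Pool/Agent/*/CRO) is this statement for the symplectic form there: `grep -rn DT1_stmt Pool/Agent/helper58/CRO`). -/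
def SDT_stmt : Prop := ∀ (m : ℕ) (L : Z m →L[ℝ] Z m), (∀ v w : Z m, omg (d := m) (L v) (L w) = omg (d := m) v w) → |L.det| = 1 ∧ ∀ v : Z m, ‖v‖ ≤ 2 * ‖L‖ * ‖L v‖

/-! ## 2. Frames -/

/-- **Row SFE** (existence of frames; short-medium). The hyperplane `⟪z.2, ·⟫ = 0` of `V (m+1)` has the dimension `m` (`z.2 ≠ 0`), and `(u, v) ↦ ⟪G z.1 u, v⟫` is an inner product: an orthonormal basis `b_1, .., b_m` of the hyperplane (Gram-Schmidt; e.g. with `T = (G z.1)^(1/2)`, or `InnerProductSpace.Core` on the submodule, or diagonalise), `e a = Σ a_i b_i`. -/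
def SFE_stmt : Prop := ∀ (m : ℕ) (G : V (m + 1) → V (m + 1) →L[ℝ] V (m + 1)) (z : P (m + 1)), IsMetric G → nrm G z = 1 → ∃ e : W m →L[ℝ] V (m + 1), Frm G z e

/-- **Row SFD** (decomposition; short-medium). `G (IG η) = η`, `IG (G u) = u` (`G x` is injective, so invertible: row GIN of SpecF, `from GIN`). `⟪z.2, vel⟫ = nrm² = 1`, `G vel = z.2`. `e* (G (e a)) = a` (`on`), `e* z.2 = 0` (`ort`). The map `(a, s) ↦ e a + s vel`, `W m × ℝ → V (m+1)`, is injective (apply `e* G` and `⟪z.2, ·⟫`), so surjective (dimension `m + 1`): first formula; second: apply it to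
`u = IG η` and then `G`: `⟪z.2, IG η⟫ = ⟪η, vel⟫`. -/
def SFD_stmt : Prop := ∀ (m : ℕ) (G : V (m + 1) → V (m + 1) →L[ℝ] V (m + 1)) (z : P (m + 1)) (e : W m →L[ℝ] V (m + 1)), IsMetric G → nrm G z = 1 → Frm G z e →
  (∀ u : V (m + 1), u = e (ContinuousLinearMap.adjoint e (G z.1 u)) + ⟪z.2, u⟫_ℝ • vel G z) ∧ (∀ η : V (m + 1), η = G z.1 (e (ContinuousLinearMap.adjoint e η)) + ⟪η, vel G z⟫_ℝ • z.2) ∧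
  (∀ a : W m, ContinuousLinearMap.adjoint e (G z.1 (e a)) = a) ∧ ContinuousLinearMap.adjoint e z.2 = 0 ∧ ⟪z.2, vel G z⟫_ℝ = 1 ∧ G z.1 (vel G z) = z.2 ∧ ∀ u : V (m + 1), IG G z.1 (G z.1 u) = u ∧ G z.1 (IG G z.1 u) = u

/-- **Row SFI** (identities and bounds; short-medium; from SFD). `LL` is linear (`wl`). `QQ (LL v) = ⟪e* G v.1, e* W⟫ = ⟪e (e* G v.1), W⟫ = ⟪v.1 - ⟪z.2, v.1⟫ vel, W⟫` (SFD), `⟪W, vel⟫ = dH(v)` (`dh`). `omg`: if `⟪z.2, v.1⟫ = ⟪z.2, w.1⟫ = 0`: `omg (LL v) (LL w) = ⟪e* W_v, e* G w.1⟫ - ⟪e* W_w, e* G v.1⟫ = ⟪W_v, w.1⟫ - ⟪W_w, v.1⟫ = omg v w` (the terms with `ChT` cancel: `ws`).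
`‖e‖ ≤ C` (`‖e a‖² ≤ C ‖a‖²`), so `‖LL v‖ ≤ C² ‖v‖`. Lower bound: `v.1 = e (LL v).1 + ⟪z.2, v.1⟫ vel`, `W = G (e (LL v).2) + dH(v) z.2`, `v.2 = W + ChT ..`, `‖ChT G x u ξ‖ = ‖Wc (u, 0)‖ ≤ C ‖u‖`. `LL (XH z) = 0`: `e* G vel = e* z.2 = 0`, `wx`. -/
def SFI_stmt : Prop := ∀ (m : ℕ) (C : ℝ), 1 ≤ C → ∃ M : ℝ, 1 ≤ M ∧ ∀ (Γ : Type) [Group Γ] [MulAction Γ (V (m + 1))] (K : Set (V (m + 1))) (G : V (m + 1) → V (m + 1) →L[ℝ] V (m + 1)) (Φ : ℝ → P (m + 1) → P (m + 1)) (D : P (m + 1) → P (m + 1) → ℝ), GEO Γ K C G Φ D →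
  ∀ z ∈ SK K G, ∀ e : W m →L[ℝ] V (m + 1), Frm G z e → IsLinearMap ℝ (LL G z e) ∧ (∀ v : P (m + 1), QQ (LL G z e v) = Qc G z v - ⟪z.2, v.1⟫_ℝ * fderiv ℝ (Ham G) z v) ∧
    (∀ v w : P (m + 1), ⟪z.2, v.1⟫_ℝ = 0 → ⟪z.2, w.1⟫_ℝ = 0 → omg (d := m) (LL G z e v) (LL G z e w) = omg v w) ∧ LL G z e (XH G z) = 0 ∧ ‖e‖ ≤ M ∧ (∀ v, ‖LL G z e v‖ ≤ M * ‖v‖) ∧
    (∀ v : P (m + 1), ‖v‖ ≤ M * (‖LL G z e v‖ + |⟪z.2, v.1⟫_ℝ| + |fderiv ℝ (Ham G) z v|)) ∧ ∀ v : P (m + 1), |Qc G z v| ≤ M * ‖v‖ ^ 2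

/-! ## 3. The chart -/

/-- **Row SKA** (THE CHART; medium; from SC1, SIM, SFD, SFI). For `a = (j, w)`: `u = e j`, `p = w + e* (ChT G z.1 u z.2)` (linear in `a`), `g(c, a) = 2 Ham G (z.1 + u, G z.1 (e p) + c z.2) - 1`: composition of `2 Ham - 1` (`bh`: `C11` on the ball `1` around `z`) with the affine map `(c, a) ↦ (z.1 + u, G(e p) + c z.2)` of norm `≤ M`, at `(1, 0)` equal to `z`, `g(1, 0) = 0`,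
`∂_c g (1, 0) = 2 dH_z(0, z.2) = 2 ⟪z.2, vel⟫ = 2` (`dh`, `wl`). SIM: `c(a)`, `c(0) = 1` (uniqueness). `κ a = (z.1 + e j, G (e p) + c(a) z.2)` (SC1 (3), (4)). `nrm = 1` from `Ham = nrm²/2`. `LL (κ a - z) = a`: `e* G (e j) = j`, `e* (G (e p) + (c-1) z.2 - ChT (e j) z.2) = p - e* ChT (e j) z.2 = w`.
`un`: `q.1 - z.1 = e j` with `j = e* G (q.1 - z.1)` (SFD), `q.2 = G (e (e* q.2)) + c z.2` with `c = ⟪q.2, vel⟫` (near `1` if `‖q - z‖ ≤ r/C'` is small), `e* q.2 = w + e* ChT (e j) z.2` for `(j, w) = LL (q - z)`; `g(c, a) = 2 Ham q - 1 = 0` and `|c - 1| ≤ ρ`, `‖a‖ ≤ r'`: `c = c(a)`. -/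
def SKA_stmt : Prop := ∀ (m : ℕ) (C : ℝ), 1 ≤ C → ∃ C' r : ℝ, 1 ≤ C' ∧ 0 < r ∧ r ≤ 1 ∧ ∀ (Γ : Type) [Group Γ] [MulAction Γ (V (m + 1))] (K : Set (V (m + 1))) (G : V (m + 1) → V (m + 1) →L[ℝ] V (m + 1)) (Φ : ℝ → P (m + 1) → P (m + 1)) (D : P (m + 1) → P (m + 1) → ℝ), GEO Γ K C G Φ D →
  ∀ z ∈ SK K G, ∀ e : W m →L[ℝ] V (m + 1), Frm G z e → ∃ κ : Z m → P (m + 1), KC C' r G z e κ

/-- **Row STH** (FLOW BOX; medium; from SC1, SIM, SFI, SFD). (`MM Φ 1 (s, p) = Φ s p`; `bm` with `γ = 1`, `t = 0`, `z' = z`.) `Θ(s, a) = Φ_s(κ a)`, `C11` at `(0, 0)` (SC1 (2), (3)), `N v = (⟪z.2, v.1⟫, LL z v)`, `N ∘ DΘ(0, 0) = id`: `DΘ(0,0)(σ, v) = σ XH(z) + Dκ(0) v` (`mx`), `N (XH z) = (⟪z.2, vel⟫, 0) = (1, 0)`, `N (Dκ(0) v) = (0, v)` (differentiate `⟪z.2, (κ a).1 - z.1⟫ = ⟪z.2, e a.1⟫ = 0` and `LL (κ a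 - z) = a`).
So `‖N (Θ q - Θ q') - (q - q')‖ ≤ M ‖DΘ(·) - DΘ(0)‖ ‖q - q'‖ ≤ ‖q - q'‖/2` on a small ball: first claim. Third: Lipschitz. Box: `g(s, p) = ⟪z.2, (Φ_s p).1 - z.1⟫` near `(0, z)`: `∂_s g = ⟪z.2, vel⟫ = 1`, `g(0, p) = O(‖p - z‖)`: SIM gives `s0`, `q = Φ_(s0) p` in the section, `‖q - z‖ ≤ M ‖p - z‖`, `nrm q = 1`: `q = κ (LL (q - z))` (`un`), `p = Φ_(-s0) q`. -/
def STH_stmt : Prop := ∀ (m : ℕ) (C C' r : ℝ), 1 ≤ C → 1 ≤ C' → 0 < r → ∃ M ρ : ℝ, 1 ≤ M ∧ 0 < ρ ∧ ρ ≤ r ∧ ∀ (Γ : Type) [Group Γ] [MulAction Γ (V (m + 1))] (K : Set (V (m + 1))) (G : V (m + 1) → V (m + 1) →L[ℝ] V (m + 1)) (Φ : ℝ → P (m + 1) → P (m + 1)) (D : P (m + 1) → P (m + 1) → ℝ), GEO Γ K C G Φ D →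
  ∀ z ∈ SK K G, ∀ (e : W m →L[ℝ] V (m + 1)) (κ : Z m → P (m + 1)), Frm G z e → KC C' r G z e κ →
    (∀ (a a' : Z m) (s s' : ℝ), ‖a‖ ≤ ρ → ‖a'‖ ≤ ρ → |s| ≤ ρ → |s'| ≤ ρ → ‖a - a'‖ + |s - s'| ≤ M * ‖Φ s (κ a) - Φ s' (κ a')‖ ∧ ‖Φ s (κ a) - Φ s' (κ a')‖ ≤ M * (‖a - a'‖ + |s - s'|)) ∧
    ∀ p : P (m + 1), nrm G p = 1 → ‖p - z‖ ≤ ρ → ∃ (s : ℝ) (a : Z m), p = Φ s (κ a) ∧ |s| ≤ M * ‖p - z‖ ∧ ‖a‖ ≤ M * ‖p - z‖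

/-! ## 4. The Poincare map -/

/-- the Poincare map `F` with the return time `τ` from the section of `z` to the section of `z'` along `γ Φ_t` -/
structure PM {m : ℕ} {Γ : Type} [Group Γ] [MulAction Γ (V (m + 1))] (M ρ r j0 t : ℝ) (Φ : ℝ → P (m + 1) → P (m + 1)) (γ : Γ) (κ κ' : Z m → P (m + 1)) (F : Z m → Z m) (τ : Z m → ℝ) : Prop where
  cF : C11 M ρ 0 F
  ct : C11 M ρ 0 τ
  F0 : ‖F 0‖ ≤ M * j0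
  eq : ∀ a, ‖a‖ ≤ ρ → κ' (F a) = MM Φ γ (τ a, κ a) ∧ |τ a - t| ≤ M * (‖a‖ ^ 2 + j0) ∧ ‖F a‖ ≤ M * (‖a‖ + j0) ∧ ‖F a‖ ≤ r

/-- **Row SPR** (existence and regularity of the Poincare map; medium; from SC1, SIM, SFI, SFD). `j0 = ‖MM (t, z) - z'‖`. `g(s, a) = ⟪z'.2, (MM (s, κ a)).1 - z'.1⟫` is `C11` at `(t, 0)` (SC1, `bm`), `∂_s g (t, 0) = ⟪z'.2, vel (MM (t, z))⟫` (`mx`) is within `M j0` of `⟪z'.2, vel z'⟫ = 1` (`vel` = first component of `XH`; `fderiv Ham (0, η) = ⟪η, vel⟫` by `dh`/`wl`, so `vel` is Lipschitz by `bh`), `|g(t, 0)| ≤ C j0`.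
SIM: `τ`. `|g(t, a)| ≤ M (‖a‖² + j0)`: with `z1 = MM (t, z)`: `⟪z1.2, (MM (t, κ a)).1 - z1.1⟫ = ⟪z1.2, (D MM (t,z)(0, Dκ(0) a)).1⟫ + O(‖a‖²)` (SC1 (1)) `= ⟪z.2, (Dκ(0) a).1⟫ + O = ⟪z.2, e a.1⟫ + O = O(‖a‖²)` (`al`; `dH(Dκ(0) a) = 0` because `nrm (κ ·) = 1`), and replacing `z1` by `z'` costs `M j0`.
`F a = LL z' (MM (τ a, κ a) - z')`, `C11` (SC1; `LL z'` is linear). The point `q = MM (τ a, κ a)` has `nrm q = 1`, `⟪z'.2, q.1 - z'.1⟫ = 0`, `‖q - z'‖ ≤ M (‖a‖ + j0)`: `κ' (F a) = q` (`un`). -/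
def SPR_stmt : Prop := ∀ (m : ℕ) (C C' r : ℝ), 1 ≤ C → 1 ≤ C' → 0 < r → ∃ M ρ : ℝ, 1 ≤ M ∧ 0 < ρ ∧ ρ ≤ r ∧ ∀ (Γ : Type) [Group Γ] [MulAction Γ (V (m + 1))] (K : Set (V (m + 1))) (G : V (m + 1) → V (m + 1) →L[ℝ] V (m + 1)) (Φ : ℝ → P (m + 1) → P (m + 1)) (D : P (m + 1) → P (m + 1) → ℝ), GEO Γ K C G Φ D →
  ∀ z ∈ SK K G, ∀ z' ∈ SK K G, ∀ (e e' : W m →L[ℝ] V (m + 1)) (κ κ' : Z m → P (m + 1)), Frm G z e → Frm G z' e' → KC C' r G z e κ → KC C' r G z' e' κ' →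
    ∀ (γ : Γ) (t : ℝ), 1 / 2 ≤ t → t ≤ 2 → ‖MM Φ γ (t, z) - z'‖ ≤ ρ → ∃ (F : Z m → Z m) (τ : Z m → ℝ), PM M ρ r ‖MM Φ γ (t, z) - z'‖ t Φ γ κ κ' F τ

/-- **Row SPQ** (THE POINCARE MAP IS HYPERBOLIC AND SYMPLECTIC; medium; from SC1, SFI). Let `‖a‖ < ρ'`, `v ∈ Z m`, `p = κ a`, `δ0 = Dκ(a) v`, `q = κ' (F a) = MM (τ a, p)`, `δ1 = Dκ'(F a) (DF(a) v)`. (i) Differentiate `κ' ∘ F = MM (τ, κ)` (near `a`, `‖a‖ < ρ`; `‖F a‖ < r` for small `ρ'`): `δ1 = D MM (τ a, p) (0, δ0) + (Dτ v) XH(q)` (`mx`). (ii) `LL z δ0 = v`, `⟪z.2, δ0.1⟫ = 0`, `dH_p(δ0) = 0`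
(differentiate `KC.on`), and `LL z' δ1 = DF v`, `⟪z'.2, δ1.1⟫ = 0`, `dH_q(δ1) = 0`. (iii) `QQ (DF v) = Qc z' δ1` (SFI, `⟪z'.2, δ1.1⟫ = 0`) `≥ Qc q δ1 - C ‖q - z'‖ ‖δ1‖²` (`bq`); `Qc q δ1 = Qc q (D MM (0, δ0))`, because `Qc q (δ + s XH) = Qc q δ + s ⟪Wc q δ, vel q⟫ = Qc q δ + s dH_q(δ)` (`wx`, `wl`, `dh`) and `dH_q (D MM (0, δ0)) = dH_p(δ0) = 0` (`hm`);
`jq`: `≥ Qc p δ0 + ‖δ0‖²/C - C ⟪p.2, δ0.1⟫²`, `|⟪p.2, δ0.1⟫| = |⟪p.2 - z.2, δ0.1⟫| ≤ M ‖a‖ ‖δ0‖`; `Qc p δ0 ≥ Qc z δ0 - C ‖p - z‖ ‖δ0‖²`, `Qc z δ0 = QQ v`. `‖δ0‖ ≥ ‖v‖/M`, `‖δ0‖, ‖δ1‖ ≤ M ‖v‖`, `‖q - z'‖ ≤ M (‖a‖ + j0)`: for small `ρ'` the sum of the errors is at most half of `‖v‖²/(C M²)`.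
(iv) `omg (DF v) (DF w) = omg δ1 δ1'` (SFI) `= omg (D MM (0, δ0)) (D MM (0, δ0')) ± ..`, the terms with `XH` are `± s dH = 0` (`ox`; `omg` is antisymmetric), `= omg δ0 δ0'` (`om`) `= omg v w` (SFI). -/
def SPQ_stmt : Prop := ∀ (m : ℕ) (C C' r M ρ : ℝ), 1 ≤ C → 1 ≤ C' → 0 < r → 1 ≤ M → 0 < ρ → ∃ c ρ' : ℝ, 0 < c ∧ 0 < ρ' ∧ ρ' ≤ ρ ∧ ∀ (Γ : Type) [Group Γ] [MulAction Γ (V (m + 1))] (K : Set (V (m + 1))) (G : V (m + 1) → V (m + 1) →L[ℝ] V (m + 1)) (Φ : ℝ → P (m + 1) → P (m + 1)) (D : P (m + 1) → P (m + 1) → ℝ), GEO Γ K C G Φ D →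
  ∀ z ∈ SK K G, ∀ z' ∈ SK K G, ∀ (e e' : W m →L[ℝ] V (m + 1)) (κ κ' : Z m → P (m + 1)), Frm G z e → Frm G z' e' → KC C' r G z e κ → KC C' r G z' e' κ' →
    ∀ (γ : Γ) (t j0 : ℝ), 1 / 2 ≤ t → t ≤ 2 → j0 = ‖MM Φ γ (t, z) - z'‖ → j0 ≤ ρ' → ∀ (F : Z m → Z m) (τ : Z m → ℝ), PM M ρ r j0 t Φ γ κ κ' F τ →
      ∀ a, ‖a‖ < ρ' → (∀ v, QQ v + c * ‖v‖ ^ 2 ≤ QQ (fderiv ℝ F a v)) ∧ ∀ v w, omg (d := m) (fderiv ℝ F a v) (fderiv ℝ F a w) = omg (d := m) v w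

/-- **Row SSE** (SECTIONS EXIST; medium; from SC1, SFE, SFI, SKA, STH, SPR, SPQ, SDT). For `z` in the shell choose `γ_z` with `z~ = lft γ_z z ∈ SK` (`cov`), a frame (SFE), the chart `κ~` of SKA at `z~`; `κ z a = lft γ_z⁻¹ (κ~ a)`. `cmp`: `di`, `d1`, Lipschitz. `bas`: `(κ z a).1 = γ_z⁻¹ • (z~.1 + e a.1)`, `γ_z⁻¹ •` is injective (it is a group action), `e` is injective.
`ver`: `q = lft γ_z u` has `q.1 = z~.1`, so `⟪z~.2, q.1 - z~.1⟫ = 0`, `q = κ~ (LL (q - z~))` (`un`), `(LL (q - z~)).1 = e* G 0 = 0`. `box`: `lft γ_z p` is within `C D z p` of `z~` (`di`, `d2`), STH, `lf`. `inj`: if `D (..) (..) ≤ 1/C` then the points `lft γ_z (..)` are within `C D` (`d2`; `Φ_s (κ~ a)` is within `1/C` of `z~`), STH; otherwise trivial. `pmap`: `γ = γ_z' γ_z⁻¹`, `MM Φ γ (t, z~) = lft γ_z' (Φ t z)` (`lf`,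 `lm`), `‖MM (t, z~) - z~'‖ ≤ C D (Φ t z) z'` (`d2` with `z~'`, `ds`). `F, τ` of SPR:
`κ' (F a) = MM Φ γ (τ a, κ~ a)` gives `κ z' (F a) = Φ_(τ a) (κ z a)`. `HYP c C e0 F`: `C11` (the derivative is Lipschitz, so `ContDiffOn 1` on the open ball: `contDiffOn_one_iff_fderiv_of_isOpen` or similar), SPQ, SDT (`lo`). Choose `e1` = the smallest radius in SKA, STH, `e0` small: `4 C e0 ≤ e1`, `C e0 ≤ ρ'`. -/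
def SSE_stmt : Prop := ∀ (m : ℕ) (C C0 : ℝ), 1 ≤ C → ∃ c C' e0 e1 : ℝ, 0 < c ∧ C0 ≤ C' ∧ ∀ (Γ : Type) [Group Γ] [MulAction Γ (V (m + 1))] (K : Set (V (m + 1))) (G : V (m + 1) → V (m + 1) →L[ℝ] V (m + 1)) (Φ : ℝ → P (m + 1) → P (m + 1)) (D : P (m + 1) → P (m + 1) → ℝ), GEO Γ K C G Φ D →
  ∃ κ : P (m + 1) → Z m → P (m + 1), SEC c C' e0 e1 (Shl G) D Φ κ

end

end Pool.Agent.VD
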