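import Pool.Agent.helper84.VD.SpecB2
import Pool.Agent.helper80.VD.SpecG
import Pool.Agent.helper11.VD.Spec3d

/-!
# Project VD (MP_07c750_an), block B3 (first part): the class of metrics satisfies `GEO` and `EFL`; SHADOWING AND RIGIDITY with energies; the interface row RIGD. Rows `vd:XXX`

RULES. Row `vd:XXX`: file `Pool/Agent/<seat>/VD/XXX.lean`, `import Pool.Agent.helper84.VD.SpecB3`, `set_option autoImplicit false`, namespace `Pool.Agent.VD`, `noncomputable section`, auxiliary lemmas prefixed `XXX_`, theorem `XXX_proof (h..) : XXX_stmt` (rows listed in `from` may be used as hypotheses `(h : YYY_stmt)`).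
No `convert`, `congr!`, `native_decide`, no double quotes, no `private`, no command starting with a sharp sign. Constants are existential: choose them as large (small) as you like.
-/

set_option autoImplicit false

open scoped ContDiff Topology InnerProductSpace ENNReal
open MeasureTheory Filter Set

namespace Pool.Agent.VD

noncomputable section

/-! ## 1. The class of metrics satisfies `GEO` -/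

/-- the algebraic fields of `GEO` -/
structure GEA {d : ℕ} (Γ : Type) [Group Γ] [MulAction Γ (V d)] (K : Set (V d)) (G : V d → V d →L[ℝ] V d) (Φ : ℝ → P d → P d) : Prop where
  met : IsMetric G
  fl : IsFlow G Φ
  hs : ContDiff ℝ ∞ (Ham G)
  dif : ∀ γ : Γ, ContDiff ℝ ∞ (MM Φ γ : ℝ × P d → P d)
  l1 : ∀ p : P d, lft (1 : Γ) p = p
  lm : ∀ (γ γ' : Γ) (p : P d), lft (γ * γ') p = lft γ (lft γ' p)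
  lf : ∀ (γ : Γ) (t : ℝ) (p : P d), Φ t (lft γ p) = lft γ (Φ t p)
  hm : ∀ (γ : Γ) (t : ℝ) (p : P d), nrm G (MM Φ γ (t, p)) = nrm G p ∧ Ham G (MM Φ γ (t, p)) = Ham G p
  cov : ∀ p : P d, nrm G p = 1 → ∃ γ : Γ, lft γ p ∈ SK K G
  wl : ∀ p : P d, IsLinearMap ℝ (Wc G p)
  ws : ∀ x ξ u u' : V d, ⟪ChT G x u ξ, u'⟫_ℝ = ⟪ChT G x u' ξ, u⟫_ℝ
  dh : ∀ p v : P d, fderiv ℝ (Ham G) p v = ⟪Wc G p v, vel G p⟫_ℝ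
  ox : ∀ p v : P d, omg v (XH G p) = fderiv ℝ (Ham G) p v
  wx : ∀ p : P d, Wc G p (XH G p) = 0
  mx : ∀ (γ : Γ) (t : ℝ) (p : P d), fderiv ℝ (MM Φ γ) (t, p) (1, 0) = XH G (MM Φ γ (t, p))
  om : ∀ (γ : Γ) (t : ℝ) (p v w : P d), omg (fderiv ℝ (MM Φ γ) (t, p) (0, v)) (fderiv ℝ (MM Φ γ) (t, p) (0, w)) = omg v w
  al : ∀ (γ : Γ) (t : ℝ) (p v : P d), fderiv ℝ (Ham G) p v = 0 → ⟪(MM Φ γ (t, p)).2, (fderiv ℝ (MM Φ γ) (t, p) (0, v)).1⟫_ℝ = ⟪p.2, v.1⟫_ℝ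

/-- the bounds of the metric in `GEO` -/
structure GEB {d : ℕ} (K : Set (V d)) (C : ℝ) (G : V d → V d →L[ℝ] V d) : Prop where
  b0 : ∀ z ∈ SK K G, ‖z.2‖ ≤ C ∧ ‖G z.1‖ ≤ C ∧ ‖IG G z.1‖ ≤ C ∧ (∀ u : V d, ‖u‖ ^ 2 ≤ C * ⟪G z.1 u, u⟫_ℝ) ∧ ∀ v : P d, ‖Wc G z v‖ ≤ C * ‖v‖
  bh : ∀ z ∈ SK K G, ∀ p q : P d, ‖p - z‖ ≤ 1 → ‖q - z‖ ≤ 1 → ‖fderiv ℝ (Ham G) p‖ ≤ C ∧ ‖fderiv ℝ (Ham G) p - fderiv ℝ (Ham G) q‖ ≤ C * ‖p - q‖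
  bq : ∀ z ∈ SK K G, ∀ p v : P d, ‖p - z‖ ≤ 1 → |Qc G p v - Qc G z v| ≤ C * ‖p - z‖ * ‖v‖ ^ 2

/-- the bounds of the flow in `GEO` -/
structure GEM {d : ℕ} (Γ : Type) [Group Γ] [MulAction Γ (V d)] (K : Set (V d)) (C : ℝ) (G : V d → V d →L[ℝ] V d) (Φ : ℝ → P d → P d) : Prop where
  bm : ∀ γ : Γ, ∀ z ∈ SK K G, ∀ z' ∈ SK K G, ∀ t : ℝ, |t| ≤ 3 → ‖MM Φ γ (t, z) - z'‖ ≤ 1 / C → ∀ q q' : ℝ × P d, ‖q - (t, z)‖ ≤ 1 / C → ‖q' - (t, z)‖ ≤ 1 / C →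
    ‖fderiv ℝ (MM Φ γ) q‖ ≤ C ∧ ‖fderiv ℝ (MM Φ γ) q - fderiv ℝ (MM Φ γ) q'‖ ≤ C * ‖q - q'‖
  jq : ∀ γ : Γ, ∀ z ∈ SK K G, ∀ t : ℝ, 1 / 4 ≤ t → t ≤ 3 → ∀ p v : P d, nrm G p = 1 → ‖p - z‖ ≤ 1 / C → fderiv ℝ (Ham G) p v = 0 →
    Qc G p v + ‖v‖ ^ 2 / C - C * ⟪p.2, v.1⟫_ℝ ^ 2 ≤ Qc G (MM Φ γ (t, p)) (fderiv ℝ (MM Φ γ) (t, p) (0, v))

/-- the distance in `GEO` -/
structure GED {d : ℕ} (Γ : Type) [Group Γ] [MulAction Γ (V d)] (K : Set (V d)) (C : ℝ) (G : V d → V d →L[ℝ] V d) (D : P d → P d → ℝ) : Prop where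
  d0 : ∀ p q : P d, 0 ≤ D p q ∧ D p p = 0 ∧ D p q = D q p
  dt : ∀ p q r : P d, D p r ≤ D p q + D q r
  di : ∀ (γ : Γ) (p q : P d), D (lft γ p) (lft γ q) = D p q
  d1 : ∀ z ∈ SK K G, ∀ p q : P d, ‖p - z‖ ≤ 1 → ‖q - z‖ ≤ 1 → D p q ≤ C * ‖p - q‖
  d2 : ∀ z ∈ SK K G, ∀ p q : P d, ‖p - z‖ ≤ 1 / C → D p q ≤ 1 / C → ‖p - q‖ ≤ C * D p q

/-- **Row SGA** (short-medium; from GIN, GXH, GLF, GHL, GUN, GEQ, GSY, GCH, GVL, GQD, FC1 or `IsC1Flow`). `MM Φ γ (t, p) = lft γ (Φ t p)`: `dif` (composition), `fderiv (MM Φ γ) (t, p) (0, v) = fderiv (lft γ) (Φ t p) (fderiv (Φ t) p v)`, `fderiv (MM Φ γ) (t, p) (1, 0) = fderiv (lft γ) (Φ t p) (XH (Φ t p))` (chain rule, `IsFlow.deriv`) `= XH (..)` (GHL). `hm`: GHL, GUN. `cov`: `FdK.cover`, `K ⊆ K'`, GHL.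
`wl`: `ChT` is linear in `u` (GCH: `Chr` is bilinear). `ws`: `⟪ChT G x u ξ, w⟫ = ⟪ξ, Chr G x u w⟫` and symmetry (GCH). `dh`, `wx`, `ox`: GVL (`omg v XH = ⟪Wc v, vel⟫ - ⟪Wc XH, v.1⟫`). `om`: GLF, GSY. `al`: GLF (`⟪(lft γ p).2, Dγ u⟫ = ⟪p.2, u⟫`, `(fderiv (lft γ) p v).1 = Dγ v.1`) and along the flow `⟪ξ, u⟫' = ⟪W, vel⟫ = dHam = 0` (GQD fourth and fifth, or: `⟪ξ, u⟫` is constant because `⟪W, vel⟫` is constant and vanishes at `0`). -/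
def SGA_stmt : Prop := ∀ (d : ℕ) (Γ : Type) [Group Γ] [MulAction Γ (V d)] (K K' : Set (V d)) (k : ℝ) (B : ℕ → ℕ → ℝ), FdK Γ K → K ⊆ K' → ∀ (G : V d → V d →L[ℝ] V d) (Φ : ℝ → P d → P d), Cls Γ K k B G → IsFlow G Φ → GEA Γ K' G Φ

/-- **Row SGB** (short-medium; from GIN, GXH, GUI, GNR, GUR, GCH). `m` with `‖x‖ ≤ m - 1` for `x ∈ K'`. `‖z.2‖ ≤ C` (GNR), so `p`, `q` are in a bounded convex set: `Ham (x, ξ) = ⟪IG x ξ, ξ⟫ / 2` has bounded second derivatives there (GUI; or GXH: `fderiv Ham p q = ⟪vel p, q.2⟫ - ⟪(XH p).2, q.1⟫` and GUX), mean value inequality on the ball of radius `1` around `z` (convex). `Wc G p v = v.2 - ChT G p.1 v.1 p.2`: GUR (bound and Lipschitz bound of `ChT`, linear in `p.2`: GCH).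
`Qc G p v - Qc G z v = -⟪ChT G p.1 v.1 p.2 - ChT G z.1 v.1 z.2, v.1⟫`. -/
def SGB_stmt : Prop := ∀ (d : ℕ) (Γ : Type) [Group Γ] [MulAction Γ (V d)] (K K' : Set (V d)) (k : ℝ) (B : ℕ → ℕ → ℝ), IsCompact K' → ∃ C : ℝ, 1 ≤ C ∧ ∀ G : V d → V d →L[ℝ] V d, Cls Γ K k B G → GEB K' C G

/-- **Row SGM** (medium; from GNR, GUN, GCF, GJT, GLF, DLL, GJQ, GQN, GXH, GHL). `m` with `‖x‖ ≤ m - 1` for `x ∈ K'`. `bm`: for `‖q - (t, z)‖ ≤ 1/C` (`C ≥ 1` large, so that `nrm G q.2 ≤ 2`: GNR, the norm of `q.2 - z` is small; `nrm G (x, ξ) ≤ C' ‖ξ‖`, continuity of `nrm²` with uniform constants: GUI) the derivatives of order `≤ 2` of `(s, p) ↦ Φ s p` at `q` are bounded (GJT, `T = 4`), `‖(Φ q.1 q.2).1‖, ‖(Φ q.1 q.2).2‖ ≤ m'` (GCF);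
`γ` maps `(Φ t z).1` (norm `≤ m'`) to within `1` of `z'.1`: `∃ x, ‖x‖ ≤ m'' ∧ ‖γ • x‖ ≤ m''`, so the derivatives of order `≤ 2` of `lft γ` are bounded on the bounded set (DLL): chain rule (first and second derivative; or `norm_iteratedFDeriv_comp_le`), mean value inequality on the ball around `(t, z)` (convex). `jq`: GJQ (`c ≥ 1/C`), GQN for `lft γ`, `fderiv (MM Φ γ) (t, p) (0, v) = fderiv (lft γ) (Φ t p) (fderiv (Φ t) p v)`. If `k ≤ 0` the class is empty (`kpos`). -/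
def SGM_stmt : Prop := ∀ (d : ℕ) (Γ : Type) [Group Γ] [MulAction Γ (V d)] (K K' : Set (V d)) (k : ℝ) (B : ℕ → ℕ → ℝ), FdK Γ K → IsCompact K' → ∃ C : ℝ, 1 ≤ C ∧ ∀ (G : V d → V d →L[ℝ] V d) (Φ : ℝ → P d → P d), Cls Γ K k B G → IsFlow G Φ → GEM Γ K' C G Φ

/-- **Row SGD** (short-medium; from DPP, DLL, GLF, GHL, GNR). `d0`, `dt`, `di`, `d1`: DPP (`‖z.2‖ ≤ C` by GNR). `d2`: `γ` with `γ • p.1 ∈ K`: `p.1` is in the closed `1`-neighbourhood of `K'` and `γ • p.1 ∈ K`, so `γ` is in a finite set (`FdK.proper`); DPP lower bound for `lft γ p`, `lft γ q` (`‖(lft γ p).2‖ ≤ C`: `nrm` is invariant and `nrm G p ≤ C` (GNR)): `‖lft γ p - lft γ q‖ ≤ C D p q ≤ 1`;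
`p = lft γ⁻¹ (lft γ p)`, `lft γ⁻¹` is Lipschitz on the bounded convex set (DLL, first derivative). -/
def SGD_stmt : Prop := ∀ (d : ℕ) (Γ : Type) [Group Γ] [MulAction Γ (V d)] (K K' : Set (V d)) (k : ℝ) (B : ℕ → ℕ → ℝ) (χ : V d → ℝ), FdK Γ K → Ctf K χ → IsCompact K' → ∃ C : ℝ, 1 ≤ C ∧ ∀ G : V d → V d →L[ℝ] V d, Cls Γ K k B G → GED Γ K' C G (dP Γ χ)

/-- **Row SGE** (short; from SGA, SGB, SGM, SGD). `C` = the maximum of the three constants; every field is monotone in `C`. -/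
def SGE_stmt : Prop := ∀ (d : ℕ) (Γ : Type) [Group Γ] [MulAction Γ (V d)] (K K' : Set (V d)) (k : ℝ) (B : ℕ → ℕ → ℝ) (χ : V d → ℝ), FdK Γ K → Ctf K χ → K ⊆ K' → IsCompact K' → ∃ C : ℝ, 1 ≤ C ∧ ∀ (G : V d → V d →L[ℝ] V d) (Φ : ℝ → P d → P d), Cls Γ K k B G → IsFlow G Φ → GEO Γ K' C G Φ (dP Γ χ)

/-! ## 2. Energies -/

/-- scaling of the covector -/
def sc {d : ℕ} (l : ℝ) (p : P d) : P d := (p.1, l • p.2)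

/-- what is used of the flow on all energy levels; `D` = the invariant distance -/
structure EFL {d : ℕ} (C : ℝ) (G : V d → V d →L[ℝ] V d) (Φ : ℝ → P d → P d) (D : P d → P d → ℝ) : Prop where
  C1 : 1 ≤ C
  d0 : ∀ p q : P d, 0 ≤ D p q ∧ D p p = 0 ∧ D p q = D q p
  dt : ∀ p q r : P d, D p r ≤ D p q + D q r
  f0 : ∀ p, Φ 0 p = p
  fa : ∀ s t p, Φ (s + t) p = Φ s (Φ t p)
  fn : ∀ t p, nrm G (Φ t p) = nrm G p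
  sf : ∀ t l p, Φ t (sc l p) = sc l (Φ (l * t) p)
  sn : ∀ l p, nrm G (sc l p) = |l| * nrm G p
  gr : ∀ p q t, nrm G p ≤ 3 / 2 → nrm G q ≤ 3 / 2 → D (Φ t p) (Φ t q) ≤ C * Real.exp (C * |t|) * D p q
  gt : ∀ p s t, nrm G p ≤ 3 / 2 → D (Φ s p) (Φ t p) ≤ C * |s - t|
  nl : ∀ p q, nrm G p ≤ 3 / 2 → nrm G q ≤ 3 / 2 → |nrm G p - nrm G q| ≤ C * D p q
  s1 : ∀ p l, nrm G p ≤ 3 / 2 → 0 ≤ l → l ≤ 2 → D p (sc l p) ≤ C * |l - 1|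
  s2 : ∀ p q l, 0 ≤ l → l ≤ 2 → D (sc l p) (sc l q) ≤ 2 * D p q

/-- **Row EFX** (short-medium; from DPP, DGR, GUN, GNR, GIN, GUI, GHL, GLF). `d0`, `dt`: DPP. `sf`: GUN (scaling). `sn`: `⟪IG (l ξ), l ξ⟫ = l² ⟪IG ξ, ξ⟫`. `gr`, `gt`: DGR. `s2`: `lft γ (sc l p) = sc l (lft γ p)` (linear in the covector), the three components of `embP χ (..)` are `χ x`, `l χ ξ`, `3 χ`: `‖embP (sc l p) - embP (sc l q)‖ ≤ max 1 l ‖embP p - embP q‖` (the norm of the product is the maximum), then the sup (DPP: bounded).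
`s1`: `‖embP (lft γ p) - embP (lft γ (sc l p))‖ = χ |l - 1| ‖(lft γ p).2‖ ≤ C |l - 1|` (on the support of `χ`: GNR; `nrm` is invariant: GHL). `nl`: by invariance `p.1 ∈ K` (`FdK.cover`); if `dP p q ≤ c0` then `‖p - q‖ ≤ C' dP p q` (DPP lower bound, GNR) and `|nrm p - nrm q| ≤ C'' ‖p - q‖`: with `q = (y, η)`, `p = (x, ξ)`: `|nrm (x, ξ) - nrm (x, η)| ≤ nrm (x, ξ - η)` (`IG x` is positive and symmetric),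
`|nrm (x, η)² - nrm (y, η)²| ≤ L ‖x - y‖ ‖η‖²` (GUI), `nrm (x, η) + nrm (y, η) ≥ c ‖η‖` (GNR); if `dP p q > c0`: `|nrm p - nrm q| ≤ 3/2`. -/
def EFX_stmt : Prop := ∀ (d : ℕ) (Γ : Type) [Group Γ] [MulAction Γ (V d)] (K : Set (V d)) (k : ℝ) (B : ℕ → ℕ → ℝ) (χ : V d → ℝ), FdK Γ K → Ctf K χ → ∃ C0 : ℝ, 1 ≤ C0 ∧ ∀ C : ℝ, C0 ≤ C → ∀ (G : V d → V d →L[ℝ] V d) (Φ : ℝ → P d → P d), Cls Γ K k B G → IsFlow G Φ → EFL C G Φ (dP Γ χ)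

/-- **Row GWX** (GRONWALL for chains; short; PURE). `D (Φ_n u_0) (u_n) ≤ Σ_(i<n) D (Φ_(n-i) u_i) (Φ_(n-i-1) u_(i+1))`, `Φ_(n-i) u_i = Φ_(n-i-1) (Φ_1 u_i)` (`fa`), each term is at most `C exp (C (n - i - 1)) D (Φ_1 u_i) (u_(i+1)) ≤ C exp (C n) r` (`gr`, `fn`). -/
def GWX_stmt : Prop := ∀ (d : ℕ) (C : ℝ) (G : V d → V d →L[ℝ] V d) (Φ : ℝ → P d → P d) (D : P d → P d → ℝ), EFL C G Φ D → ∀ (n : ℕ) (r : ℝ) (u : ℕ → P d), 0 ≤ r → (∀ i ≤ n, nrm G (u i) ≤ 3 / 2) → (∀ i < n, D (Φ 1 (u i)) (u (i + 1)) ≤ r) →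
  ∀ j l : ℕ, j + l ≤ n → D (Φ l (u j)) (u (j + l)) ≤ l * (C * Real.exp (C * l)) * r

/-! ## 3. Rigidity and shadowing on the shell -/

/-- **Row RGA** (RIGIDITY ON THE SHELL; medium; from NBD, NRC is not needed). Reference points `w i`, charts `κ (w i)`, `F_i, τ_i` from `SEC.pmap` at `z = w i`, `z' = w (i+1)`, time `t i` (`F_i := F_0` for `i ≥ n`), `‖F_i 0‖ ≤ C ε`. `SEC.box`: `w' i = Φ_(s_i) (κ (w i) (b_i))`, `|s_i|, ‖b_i‖ ≤ C D (w i) (w' i) ≤ C e2`. `Φ_(t' i) (w' i) = Φ_σ (κ (w (i+1)) (F_i b_i))`, `σ = t' i + s_i - τ_i(b_i)`, `|σ| ≤ ε + C e2 + C (‖b_i‖² + ε) ≤ e1`, `‖F_i b_i‖ ≤ C ε + C ‖b_i‖ ≤ e1`.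
`SEC.inj` at `w (i+1)`: `‖F_i b_i - b_(i+1)‖ + |σ - s_(i+1)| ≤ C D (Φ_(t' i) (w' i)) (w' (i+1)) ≤ C ε`. So `0` and `b` are pseudo-orbits with the errors `C ε`, `‖b_0‖, ‖b_n‖ ≤ C ε`: NBD gives `‖b_k‖ ≤ K ε`. Times: `|s_(i+1) - s_i| ≤ |t' i - t i| + |τ_i(b_i) - t i| + C ε ≤ K ε` (`‖b_i‖² ≤ K² ε² ≤ K² ε`, `ε ≤ 1`), so `|s_i| ≤ K (i + 1) ε`. `D (w i) (w' i) ≤ D (κ 0) (κ b_i) + D (κ b_i) (Φ_(s_i) (κ b_i)) ≤ C ‖b_i‖ + C |s_i|` (`cmp`, `zero`, `gt`). `n = 0`: hypothesis. -/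
def RGA_stmt : Prop := ∀ (m : ℕ) (c C e0 e1 : ℝ), 0 < c → 1 ≤ C → 0 < e0 → 4 * C * e0 ≤ e1 → ∃ e2 K' : ℝ, 0 < e2 ∧ 1 ≤ K' ∧ ∀ (G : V (m + 1) → V (m + 1) →L[ℝ] V (m + 1)) (Φ : ℝ → P (m + 1) → P (m + 1)) (D : P (m + 1) → P (m + 1) → ℝ) (κ : P (m + 1) → Z m → P (m + 1)), EFL C G Φ D → SEC c C e0 e1 (Shl G) D Φ κ →
  ∀ (n : ℕ) (ε : ℝ) (t t' : ℕ → ℝ) (w w' : ℕ → P (m + 1)), 0 ≤ ε → ε ≤ e2 → (∀ i ≤ n, nrm G (w i) = 1 ∧ nrm G (w' i) = 1 ∧ D (w i) (w' i) ≤ e2) →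
    (∀ i < n, 1 / 2 ≤ t i ∧ t i ≤ 2 ∧ |t' i - t i| ≤ ε ∧ D (Φ (t i) (w i)) (w (i + 1)) ≤ ε ∧ D (Φ (t' i) (w' i)) (w' (i + 1)) ≤ ε) → D (w 0) (w' 0) ≤ ε → D (w n) (w' n) ≤ ε → ∀ i ≤ n, D (w i) (w' i) ≤ K' * (n + 1) * ε

/-- **Row SHW** (SHADOWING ON THE SHELL; short-medium; from NSH). `n = 0`: `v = 0`. `n ≥ 1`: `F_i, τ_i` as in RGA, `‖F_i 0‖ ≤ C ε ≤ e2'`; NSH with `x = y = 0`: an orbit `a` with `(a 0).1 = 0`, `‖a k‖ ≤ K ε`; `a 0 = (0, v)`, `T (i+1) = T i + τ_i (a i)`: `Φ (T i) (κ (w 0) (a 0)) = κ (w i) (a i)` (`fa`, `pmap`), `|τ_i (a i) - t i| ≤ C (‖a i‖² + ε)`, `D (κ (w i) (a i)) (w i) ≤ C ‖a i‖` (`cmp`, `zero`). -/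
def SHW_stmt : Prop := ∀ (m : ℕ) (c C e0 e1 : ℝ), 0 < c → 1 ≤ C → 0 < e0 → 4 * C * e0 ≤ e1 → ∃ e2 K' : ℝ, 0 < e2 ∧ 1 ≤ K' ∧ ∀ (G : V (m + 1) → V (m + 1) →L[ℝ] V (m + 1)) (Φ : ℝ → P (m + 1) → P (m + 1)) (D : P (m + 1) → P (m + 1) → ℝ) (κ : P (m + 1) → Z m → P (m + 1)), EFL C G Φ D → SEC c C e0 e1 (Shl G) D Φ κ →
  ∀ (n : ℕ) (ε : ℝ) (t : ℕ → ℝ) (w : ℕ → P (m + 1)), 0 ≤ ε → ε ≤ e2 → (∀ i ≤ n, nrm G (w i) = 1) → (∀ i < n, 1 / 2 ≤ t i ∧ t i ≤ 2 ∧ D (Φ (t i) (w i)) (w (i + 1)) ≤ ε) →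
    ∃ (v : W m) (T : ℕ → ℝ), ‖v‖ ≤ K' * ε ∧ T 0 = 0 ∧ (∀ i < n, |T (i + 1) - T i - t i| ≤ K' * ε) ∧ ∀ i ≤ n, D (Φ (T i) (κ (w 0) (0, v))) (w i) ≤ K' * ε

/-! ## 4. With energies -/

/-- **Row SHC** (SHADOWING WITH ENERGIES; medium; from SHW). `ν i = nrm G (u i)`, `λ = ν 0`, `w i = sc (1 / ν i) (u i)` (in the shell: `sn`), `t i = ν i`: `Φ (ν i) (w i) = sc (1 / ν i) (Φ 1 (u i))` (`sf`). `|ν (i+1) - ν i| = |nrm (u (i+1)) - nrm (Φ 1 (u i))| ≤ C r` (`nl`, `fn`). `D (Φ (t i) (w i)) (w (i+1)) ≤ 2 D (Φ 1 (u i)) (u (i+1)) + D (sc (1/ν i) (u (i+1))) (sc (1/ν (i+1)) (u (i+1))) ≤ 2 r + C |ν (i+1)/ν i - 1| ≤ 4 C² r`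
(`s2`; `sc (1/ν i) (u (i+1)) = sc (ν (i+1)/ν i) (w (i+1))`, `s1`). SHW with `ε = 4 C² r`: `v`, `T`, `x = κ (w 0) (0, v)`. `|T i - i λ| ≤ Σ_(j<i) (|ν j - λ| + K ε) ≤ K (n+1)² r`, `D (Φ (i λ) x) (Φ (T i) x) ≤ C |i λ - T i|` (`gt`; `SEC.mem`). `D (sc λ (Φ (iλ) x)) (u i) ≤ 2 D (Φ (iλ) x) (w i) + D (sc (λ/ν i) (u i)) (u i)` (`s2`, `s1`). -/
def SHC_stmt : Prop := ∀ (m : ℕ) (c C e0 e1 : ℝ), 0 < c → 1 ≤ C → 0 < e0 → 4 * C * e0 ≤ e1 → ∃ e2 K' : ℝ, 0 < e2 ∧ 1 ≤ K' ∧ ∀ (G : V (m + 1) → V (m + 1) →L[ℝ] V (m + 1)) (Φ : ℝ → P (m + 1) → P (m + 1)) (D : P (m + 1) → P (m + 1) → ℝ) (κ : P (m + 1) → Z m → P (m + 1)), EFL C G Φ D → SEC c C e0 e1 (Shl G) D Φ κ →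
  ∀ (n : ℕ) (r : ℝ) (u : ℕ → P (m + 1)), 0 ≤ r → r ≤ e2 → (∀ i ≤ n, 3 / 4 ≤ nrm G (u i) ∧ nrm G (u i) ≤ 5 / 4) → (∀ i < n, D (Φ 1 (u i)) (u (i + 1)) ≤ r) →
    ∃ v : W m, ‖v‖ ≤ K' * r ∧ ∀ i ≤ n, D (sc (nrm G (u 0)) (Φ (i * nrm G (u 0)) (κ (sc (1 / nrm G (u 0)) (u 0)) (0, v)))) (u i) ≤ K' * (n + 1) ^ 2 * r ∧ |nrm G (u i) - nrm G (u 0)| ≤ K' * (n + 1) * r

/-- **Row RGB** (RIGIDITY WITH ENERGIES; medium; from RGA). `ν i`, `w i` as in SHC, `ν' i`, `w' i` for `u'`; `t i = ν i`, `t' i = ν' i`, `|ν i - ν' i| ≤ |ν 0 - ν' 0| + 2 i C r ≤ 3 C (n + 1) r` (`nl`). The jumps of `w`, `w'` are at most `4 C² r`. `D (w i) (w' i) ≤ 2 D (u i) (u' i) + C |ν i/ν' i - 1|` is small (`K' (n + 1) r ≤ 1`, `K'` large), and at most `ε = 20 C² (n + 1) r` for `i = 0, n`. RGA: `D (w i) (w' i) ≤ K (n + 1) ε`,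
`u i = sc (ν i) (w i)`: `D (u i) (u' i) ≤ 2 D (w i) (w' i) + D (sc (ν i) (w' i)) (sc (ν' i) (w' i)) ≤ 2 K (n + 1) ε + C · 2 |ν i - ν' i|`. -/
def RGB_stmt : Prop := ∀ (m : ℕ) (c C e0 e1 : ℝ), 0 < c → 1 ≤ C → 0 < e0 → 4 * C * e0 ≤ e1 → ∃ e2 K' : ℝ, 0 < e2 ∧ 1 ≤ K' ∧ ∀ (G : V (m + 1) → V (m + 1) →L[ℝ] V (m + 1)) (Φ : ℝ → P (m + 1) → P (m + 1)) (D : P (m + 1) → P (m + 1) → ℝ) (κ : P (m + 1) → Z m → P (m + 1)), EFL C G Φ D → SEC c C e0 e1 (Shl G) D Φ κ →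
  ∀ (n : ℕ) (r : ℝ) (u u' : ℕ → P (m + 1)), 0 ≤ r → K' * (n + 1) * r ≤ 1 → (∀ i ≤ n, 3 / 4 ≤ nrm G (u i) ∧ nrm G (u i) ≤ 5 / 4 ∧ 3 / 4 ≤ nrm G (u' i) ∧ nrm G (u' i) ≤ 5 / 4 ∧ D (u i) (u' i) ≤ e2) →
    (∀ i < n, D (Φ 1 (u i)) (u (i + 1)) ≤ r ∧ D (Φ 1 (u' i)) (u' (i + 1)) ≤ r) → D (u 0) (u' 0) ≤ r → D (u n) (u' n) ≤ r → ∀ i ≤ n, D (u i) (u' i) ≤ K' * (n + 1) ^ 2 * r

/-! ## 5. Chains, and the interface row RIGD -/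

/-- **Row CHB** (UNIT STEP VERTICES of a chain of big steps; short; PURE combinatorics). By induction on `k`: `RC k y y'` gives `x : ℕ → YS Γ d` with `x 0 = y`, `x (k+1) = y'` and `St (x i) (x (i+1))` for `i < k + 1`. Concatenate (`i = j (n + 1) + l`, `Nat.div`, `Nat.mod`; or induction on `N`). -/
def CHB_stmt : Prop := ∀ (d : ℕ) (Γ : Type) [Group Γ] [MulAction Γ (V d)] (G : V d → V d →L[ℝ] V d) (Φ : ℝ → P d → P d) (r0 : ℝ) (A : Par) (R : ℝ) (N : ℕ) (w : ℕ → YS Γ d), ChD G Φ r0 A R N w →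
  ∃ x : ℕ → YS Γ d, (∀ j ≤ N, x (j * (A.n R + 1)) = w j) ∧ ∀ i < N * (A.n R + 1), St G Φ r0 (A.r R) R (x i) (x (i + 1))

/-- **Row STU** (UNIT STEPS in terms of `prY`; short-medium; from DPP, GLF, GHL, GEQ, GNR, GCF, GXH, GUN). `prY y = lft y.1 y.2`, `Φ 1 (prY y) = lft y.1 (Φ 1 y.2)` (GEQ), `prY y' = lft y.1 (rel y y')` (GLF), so by invariance `dP (..) (..) = dP (Φ 1 y.2) (rel y y') ≤ C dist ..` (DPP upper bound: `‖y.2.1‖ ≤ r0`, `nrm ≤ 2`, GCF: `Φ 1 y.2` is in a fixed ball, `rel y y'` within `A.r R ≤ 1` of it).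
`|Ham - 1/2| ≤ 2 R^(-1/4)` and `nrm² = 2 Ham` (GXH), so `|nrm - 1| ≤ |nrm² - 1| ≤ 4 R^(-1/4)`; `nrm (prY y) = nrm y.2` (GHL). For `R ≥ 1` with `4 R^(-1/4) ≤ 1/4`. -/
def STU_stmt : Prop := ∀ (d : ℕ) (Γ : Type) [Group Γ] [MulAction Γ (V d)] (K : Set (V d)) (r0 : ℝ) (η : V d → ℝ) (k : ℝ) (B : ℕ → ℕ → ℝ), FdK Γ K → 1 ≤ r0 → Ctf K η → ∃ C R0 : ℝ, 1 ≤ C ∧ 1 ≤ R0 ∧ ∀ (r R : ℝ) (G : V d → V d →L[ℝ] V d) (Φ : ℝ → P d → P d), R0 ≤ R → r ≤ 1 → Cls Γ K k B G → IsFlow G Φ →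
  ∀ y y' : YS Γ d, St G Φ r0 r R y y' → dP Γ η (Φ 1 (prY y)) (prY y') ≤ C * r ∧ |nrm G (prY y) - 1| ≤ 4 * R ^ (-(1 / 4) : ℝ) ∧ |nrm G (prY y') - 1| ≤ 4 * R ^ (-(1 / 4) : ℝ) ∧
    3 / 4 ≤ nrm G (prY y) ∧ nrm G (prY y) ≤ 5 / 4 ∧ 3 / 4 ≤ nrm G (prY y') ∧ nrm G (prY y') ≤ 5 / 4

/-- **Row SCL** (SECTIONS FOR THE CLASS; short; from SSE, SGE, EFX). `d = m + 1`. SGE for `K' = K`: `GEO` with the constant `CG`; SSE with `C := CG`, `C0 :=` the constant of EFX (and `1`). The inequalities `0 < e0`, `4 C e0 ≤ e1` are fields of `SEC`; if the class is empty take any numbers. -/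
def SCL_stmt : Prop := ∀ (m : ℕ) (Γ : Type) [Group Γ] [MulAction Γ (V (m + 1))] (K : Set (V (m + 1))) (k : ℝ) (B : ℕ → ℕ → ℝ) (η : V (m + 1) → ℝ), FdK Γ K → Ctf K η → ∃ c C e0 e1 : ℝ, 0 < c ∧ 1 ≤ C ∧ 0 < e0 ∧ 4 * C * e0 ≤ e1 ∧
  ∀ (G : V (m + 1) → V (m + 1) →L[ℝ] V (m + 1)) (Φ : ℝ → P (m + 1) → P (m + 1)), Cls Γ K k B G → IsFlow G Φ → EFL C G Φ (dP Γ η) ∧ ∃ κ : P (m + 1) → Z m → P (m + 1), SEC c C e0 e1 (Shl G) (dP Γ η) Φ κ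

/-- **Row RGD** (= the interface row RIGD; medium; from SCL, RGB, CHB, STU, GWX). `d = m + 1`. Constants of SCL; `e2` of RGB, `eps = e2/2`. Unit step vertices `x`, `x'` of the chains (CHB), `u i = prY (x i)`, `u' i = prY (x' i)`, `n1 = N (A.n R + 1)` steps, `D (Φ 1 (u i)) (u (i+1)) ≤ C A.r R =: r` (STU; `A.r R = R^(-1/2 + z2) ≤ 1`). CLOSENESS: `i = j (A.n R + 1) + l`, `l ≤ A.n R`, `j < N`, `s = j tu + l` (`⌊s / tu⌋₊ = j`): `frD w s = Φ l (prY (w j))`,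
so `D (u i) (u' i) ≤ eps + 2 l C exp (C l) r ≤ e2` (GWX; `exp (C l) ≤ exp (C) R^(C A.e2)`, `C A.e2 ≤ 1/10`, `l ≤ log R`); for `i = n1` both are the same point. RGB: `D (u i) (u' i) ≤ K (n1 + 1)² r ≤ R^(-1/2 + C A.z2)` for large `R` (`n1 + 1 ≤ N (A.e2 log R + 2)`, `0 < A.z2` from `Adm`: `A.z2 ≥ C A.z1 ≥ C² A.z > 0`). Ends: `D (u 0) (u' 0) = 0`, `D (u n1) (u' n1) = 0`. -/
def RGD_stmt : Prop := RIGD_stmt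

end

end Pool.Agent.VD
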