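import Pool.Agent.helper84.VD.SpecB3
import Pool.Agent.helper94.VD.SpecDPR
import Pool.Agent.helper62.VD.SpecL2
import Pool.Agent.helper99.VD.SpecV
import Pool.Agent.helper93.VD.SpecB4c

/-!
# Project VD (MP_07c750_an), block B3 (second part): COMPRESSION OF CHAINS OF BIG STEPS TO DISCS: `DOB`. Rows `vd:XXX`

A chain of `b` big steps from `y` is shadowed by the orbit of a point `κ z (0, v)`, `z = dir y`, `‖v‖ ≤ s = R^(-1/2 + C z2)` (row DCN). Cover the disc by Bowen discs of radius `s` around a maximal separated set. For the chains near one center the product of the kernels is at most `R^(2 d b + ..) s^(-m)` times the volume of the Bowen disc (row DWT: density of the beams KUB, determinants DCM, volume DPR), and every vertex runs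
through a set of measure `R^(-d + ..)` (VBY). Sum up (QZC).

RULES. Row `vd:XXX`: file `Pool/Agent/<seat>/VD/XXX.lean`, `import Pool.Agent.helper84.VD.SpecB5`, `set_option autoImplicit false`, namespace `Pool.Agent.VD`, `noncomputable section`, auxiliary lemmas prefixed `XXX_`, theorem `XXX_proof (h..) : XXX_stmt` (rows listed in `from` may be used as hypotheses `(h : YYY_stmt)`).
No `convert`, `congr!`, `native_decide`, no double quotes, no `private`, no command starting with a sharp sign. Constants are existential: choose them as large (small) as you like.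
-/

set_option autoImplicit false

open scoped ContDiff Topology InnerProductSpace ENNReal
open MeasureTheory Filter Set

namespace Pool.Agent.VD

open Pool.Agent.VQ (CH qZ)
open Pool.Agent.VDE (dir)

noncomputable section

/-! ## 1. Sections: monotonicity, the class -/

/-- **Row SEM** (short; PURE). All fields are monotone: smaller `e0`, larger `C` (`HYP c C e0 F` gives `HYP c C2 e2 F`: smaller ball, larger constant). -/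
def SEM_stmt : Prop := ∀ (m : ℕ) (c C C2 e0 e2 e1 : ℝ) (S : Set (P (m + 1))) (D : P (m + 1) → P (m + 1) → ℝ) (Φ : ℝ → P (m + 1) → P (m + 1)) (κ : P (m + 1) → Z m → P (m + 1)), (∀ p q, 0 ≤ D p q) → SEC c C e0 e1 S D Φ κ → C ≤ C2 → 0 < e2 → e2 ≤ e0 → 4 * C2 * e2 ≤ e1 → SEC c C2 e2 e1 S D Φ κ

/-- **Row SCM** (= helper93's `VDL.SCL_stmt`; short; from SSE, SGE). SGE with `K' = K` gives `GEO` with a uniform constant; SSE with `max C0 1`. `0 < e0`, `0 < e1` from the fields of `SEC` (`4 C e0 ≤ e1`); if the class is empty take `1`. -/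
def SCM_stmt : Prop := VDL.SCL_stmt

/-! ## 2. Determinants -/

/-- **Row DLP** (the determinant is Lipschitz on balls; short-medium; PURE). `det` is a continuous multilinear map of the columns (`ContinuousMultilinearMap.norm_image_sub_le` or expand: `Matrix.det_apply`), or `det X - det X' = ∫ d/dt`. All norms on a finite dimensional space are equivalent. -/
def DLP_stmt : Prop := ∀ d : ℕ, ∃ C : ℝ, 1 ≤ C ∧ ∀ (X X' : V d →L[ℝ] V d) (M : ℝ), 1 ≤ M → ‖X‖ ≤ M → ‖X'‖ ≤ M → |X.det - X'.det| ≤ C * M ^ d * ‖X - X'‖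

/-- **Row YDB** (short-medium; PURE linear algebra). In the standard bases: `A_ij = (fderiv f p (e_j, 0)).1 i`, `B_ij = (fderiv f p (0, e_j)).1 i`, `Yf f p 1 (i 1) = A + i B`. The matrix `L = [[A, B], [*, *]]` of `fderiv f p` is symplectic, `Lᵀ J L = J`, so `L J Lᵀ = J`: `A Bᵀ = B Aᵀ`. If `det B = 0` there is nothing to prove. Otherwise `S = B⁻¹ A` is real symmetric and `A + i B = B (S + i)`,
`|det (S + i)|² = det ((S + i) (S - i)) = det (S² + 1) ≥ 1` (`S² ≥ 0`; or by diagonalisation `∏ |s_j + i| ≥ 1`). -/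
def YDB_stmt : Prop := ∀ (d : ℕ) (f : P d → P d) (p : P d), (∀ v w, omg (fderiv ℝ f p v) (fderiv ℝ f p w) = omg v w) →
  |((ContinuousLinearMap.fst ℝ (V d) (V d)).comp ((fderiv ℝ f p).comp (ContinuousLinearMap.inr ℝ (V d) (V d)))).det| ≤ ‖(Yf f p 1 (Complex.I • 1)).det‖

/-- **Row KUB** (THE DENSITY OF THE BIG STEP; short-medium; from A9DD, YDB, GLF, GSY). `f q = lft (y.1⁻¹ * y'.1)⁻¹ (Φ (tu) q) = MM Φ (y'.1⁻¹ * y.1) (tu, q)` is symplectic (GLF, GSY) and `fst ∘ fderiv f y.2 ∘ inr = Bx Φ (y'.1⁻¹ * y.1) tu y.2` (chain rule; everything is smooth). `OKA` from the hypotheses. -/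
def KUB_stmt : Prop := ∀ (d : ℕ) (Γ : Type) [Group Γ] [MulAction Γ (V d)] (K : Set (V d)) (k : ℝ) (B : ℕ → ℕ → ℝ) (r0 : ℝ) (χ : V d → ℝ), FdK Γ K → PU Γ r0 χ → ∃ C : ℝ, 1 ≤ C ∧ ∀ (ch : ℝ → ℝ) (A : Par), CH ch → Adm C A → ∃ R0 : ℝ, 1 ≤ R0 ∧
  ∀ (R : ℝ) (G : V d → V d →L[ℝ] V d) (Φ : ℝ → P d → P d) (y y' : YS Γ d), R0 ≤ R → Cls Γ K k B G → IsFlow G Φ → y ∈ GW Γ G r0 (3 / 2) R →
    ‖ub G Φ r0 χ ch A R y y'‖ ^ 2 * |(Bx Φ (y'.1⁻¹ * y.1) (A.tu R) y.2).det| ≤ R ^ (2 * (d : ℝ) + C * A.z2)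

/-- **Row UBR** (short; PURE). `us y y' ≠ 0` implies `St y y'`; `usn (k+1) = cmZ (mY) us (usn k)`: a nonzero integral has a point `x` where the integrand is not zero; induction on `k`. -/
def UBR_stmt : Prop := ∀ (d : ℕ) (Γ : Type) [Group Γ] [MulAction Γ (V d)] (G : V d → V d →L[ℝ] V d) (Φ : ℝ → P d → P d) (r0 : ℝ) (χ : V d → ℝ) (ch : ℝ → ℝ) (A : Par) (R : ℝ) (y y' : YS Γ d), ub G Φ r0 χ ch A R y y' ≠ 0 → Reach G Φ r0 A R y y'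

/-- **Row CRX** (CRUDE BOUNDS FOR LONG TIMES; medium; from DCH (helper94/VD/SpecDPR)). `n = 0`: `bm` with `t = 0`. `n ≥ 1`: `γ_0 = 1`, `γ_n = γ`, `γ_i` with `y_i = lft γ_i (Φ (i l) p) ∈ SK` for `0 < i < n` (`cov`, `hm`), `q_i = lft γ_i (Φ (i l') q)`, `β_i = γ_(i+1) * γ_i⁻¹`: `y_(i+1) = MM Φ β_i (l, y_i)`, `q_(i+1) = MM Φ β_i (l', q_i)` (`lf`, `lm`, `fl.add`). `bm` for `z = y_i`, `z' = y_(i+1)`, `t = l`: on the ball of radius `1/C`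
around `(l, y_i)` the derivative is bounded by `C` and `C`-Lipschitz. So `δ_i = ‖q_i - y_i‖` satisfies `δ_(i+1) ≤ C (δ_i + |l - l'|)` (mean value inequality) as long as `δ_i, |l - l'| ≤ 1/C`: `δ_i ≤ C^i (δ_0 + i |l - l'|)`. Chain rule (DCH): `D_i v = fderiv (MM Φ γ_i) (i l, p) (0, v)`, `D_(i+1) v = fderiv (MM Φ β_i) (l, y_i) (0, D_i v)`, the same for `q`: `‖D_i v‖, ‖D'_i v‖ ≤ C^i ‖v‖`,
`‖D_(i+1) v - D'_(i+1) v‖ ≤ C ‖D_i v - D'_i v‖ + C (δ_i + |l - l'|) C^i ‖v‖`. `M` = a large power of `2 C`. -/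
def CRX_stmt : Prop := ∀ (d : ℕ) (C : ℝ), 1 ≤ C → ∃ M : ℝ, 1 ≤ M ∧ ∀ (Γ : Type) [Group Γ] [MulAction Γ (V d)] (K : Set (V d)) (G : V d → V d →L[ℝ] V d) (Φ : ℝ → P d → P d) (D : P d → P d → ℝ), GEO Γ K C G Φ D →
  ∀ (n : ℕ) (γ : Γ) (l l' : ℝ) (p q : P d), 1 / 2 ≤ l → l ≤ 2 → 1 / 2 ≤ l' → l' ≤ 2 → p ∈ SK K G → MM Φ γ (n * l, p) ∈ SK K G → M ^ (n + 1) * (‖p - q‖ + n * |l - l'|) ≤ 1 →
    ∀ v : P d, ‖fderiv ℝ (MM Φ γ) (n * l, p) (0, v)‖ ≤ M ^ (n + 1) * ‖v‖ ∧ ‖fderiv ℝ (MM Φ γ) (n * l', q) (0, v)‖ ≤ M ^ (n + 1) * ‖v‖ ∧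
      ‖fderiv ℝ (MM Φ γ) (n * l, p) (0, v) - fderiv ℝ (MM Φ γ) (n * l', q) (0, v)‖ ≤ M ^ (n + 1) * (‖p - q‖ + n * |l - l'|) * ‖v‖

/-- **Row DCM** (COMPARISON OF THE DETERMINANTS; medium; from CRX, DLP). `lam = nrm G q`; `|l - lam| ≤ C s` (`nl`, `sn`, `nrm p = 1`), `q2 = sc (1/lam) q`, `D p q2 ≤ D (sc (1/l) (sc l p)) (sc (1/l) q) + D (sc (1/l) q) (sc (1/lam) q) ≤ 2 s + C |lam/l - 1| ≤ 4 C² s` (`s2`, `s1`; `sc (1/l) q = sc (lam/l) q2`), so `‖p - q2‖ ≤ 4 C³ s` (`d2` with `z = p`). SCALING: `lft γ (sc l p) = sc l (lft γ p)` (definition of `lft`: linear in the covector),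
`MM Φ γ (t, sc l p) = sc l (MM Φ γ (l t, p))` (`sf`); differentiate `(MM Φ γ (n, sc lam (x, ξ))).1 = (MM Φ γ (lam n, (x, ξ))).1` in the direction `(0, η)`: `Bx Φ γ n q (lam η) = Bx Φ γ (n lam) q2 η`, so `|det Bx Φ γ n q| = lam^(-d) |det Bx Φ γ (n lam) q2|`, `lam ≤ 2`. CRX with `l' = lam`, `q := q2`: `‖Bx Φ γ (n l) p - Bx Φ γ (n lam) q2‖ ≤ M0^(n+1) (4 C³ s + n C s)`, both norms at most `M0^(n+1)`; DLP:
the determinants differ by at most `C_d M0^((n+1)(d+1)) 5 C³ (n + 1) s ≤ 1/(2 K1) ≤ |det Bx Φ γ (n l) p| / 2` if `M` is large (`n + 1 ≤ 2^(n+1)`). -/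
def DCM_stmt : Prop := ∀ (d : ℕ) (C K1 : ℝ), 1 ≤ C → 1 ≤ K1 → ∃ M : ℝ, 1 ≤ M ∧ ∀ (Γ : Type) [Group Γ] [MulAction Γ (V d)] (K : Set (V d)) (G : V d → V d →L[ℝ] V d) (Φ : ℝ → P d → P d) (D : P d → P d → ℝ), GEO Γ K C G Φ D → EFL C G Φ D →
  ∀ (n : ℕ) (γ : Γ) (l s : ℝ) (p q : P d), 3 / 4 ≤ l → l ≤ 5 / 4 → p ∈ SK K G → MM Φ γ (n * l, p) ∈ SK K G → nrm G q ≤ 3 / 2 → 0 ≤ s → D (sc l p) q ≤ s → M ^ (n + 1) * s ≤ 1 → 1 ≤ K1 * |(Bx Φ γ (n * l) p).det| →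
    |(Bx Φ γ (n * l) p).det| ≤ M * |(Bx Φ γ n q).det|

/-! ## 3. Chains and discs -/

/-- **Row DCN** (CHAINS OF BIG STEPS ARE SHADOWED BY THE DISC; medium; from SHC, SEM, EFX, CHB, STU, DPP, GLF, GHL, GEQ, GXH). Enlarge `C'` to `C2 = max C' C0` (`C0` of EFX), `e2 = min e0 (e1 / (4 C2))` (SEM). Unit step vertices `x` (CHB), `u i = lft (w 0).1⁻¹ (prY (x i))`, so `u 0 = (w 0).2`; `D (Φ 1 (u i)) (u (i+1)) = D (Φ 1 (prY (x i))) (prY (x (i+1))) ≤ C A.r R` (STU, invariance, GEQ), `nrm (u i) = nrm (prY (x i)) ∈ [3/4, 5/4]`.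
SHC with `r := C A.r R`, `n := b (A.n R + 1)`: `v`, and for `i = j (A.n R + 1)`: `i * l = j * A.tu R * l`, `u i = lft ((w 0).1⁻¹ * (w j).1) (w j).2` (GLF). `K' (n + 1)² C A.r R ≤ R^(-1/2 + C z2)` for large `R` (`n + 1 ≤ b (A.e2 log R + 2)`, `0 < A.z2`). Window: `‖(w j).2.1‖ ≤ r0` (`St` or hypothesis), `Ep = (nrm² - 1)/2` (GXH), `nrm G (w j).2 = nrm (u i)` (GHL), `|nrm (u i) - nrm (u 0)| ≤ K' (n+1) r ≤ R^(-1/4)/10`. -/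
def DCN_stmt : Prop := ∀ (m : ℕ) (Γ : Type) [Group Γ] [MulAction Γ (V (m + 1))] (K : Set (V (m + 1))) (r0 : ℝ) (η : V (m + 1) → ℝ) (k : ℝ) (B : ℕ → ℕ → ℝ) (c C' e0 e1 : ℝ), FdK Γ K → 1 ≤ r0 → Ctf K η → 0 < c → 1 ≤ C' → 0 < e0 → 0 < e1 →
  ∃ C : ℝ, 1 ≤ C ∧ ∀ (A : Par) (b : ℕ), Adm C A → 1 ≤ b → ∃ R0 : ℝ, 1 ≤ R0 ∧ ∀ (R : ℝ) (G : V (m + 1) → V (m + 1) →L[ℝ] V (m + 1)) (Φ : ℝ → P (m + 1) → P (m + 1)) (κ : P (m + 1) → Z m → P (m + 1)), R0 ≤ R → Cls Γ K k B G → IsFlow G Φ → SEC c C' e0 e1 (Shl G) (dP Γ η) Φ κ →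
    ∀ w : ℕ → YS Γ (m + 1), w 0 ∈ GW Γ G r0 (5 / 4) R → ChD G Φ r0 A R b w → ∃ v : W m, ‖v‖ ≤ R ^ (-(1 / 2) + C * A.z2) ∧ ∀ j ≤ b, w j ∈ GW Γ G r0 (3 / 2) R ∧
      dP Γ η (sc (nrm G (w 0).2) (Φ (j * A.tu R * nrm G (w 0).2) (κ (dir G (w 0).2) (0, v)))) (lft ((w 0).1⁻¹ * (w j).1) (w j).2) ≤ R ^ (-(1 / 2) + C * A.z2)

/-- the Bowen disc of radius `s` around `κ z (0, v0)` in the disc of radius `ρ` at `z` -/
def BD {m : ℕ} (D : P (m + 1) → P (m + 1) → ℝ) (Φ : ℝ → P (m + 1) → P (m + 1)) (κ : P (m + 1) → Z m → P (m + 1)) (z : P (m + 1)) (l : ℝ) (N : ℕ) (ρ s : ℝ) (v0 : W m) : Set (W m) :=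
  {v | ‖v‖ ≤ ρ ∧ ∀ i ≤ N, D (Φ (i * l) (κ z (0, v0))) (Φ (i * l) (κ z (0, v))) ≤ s}

/-- **Row BDV** (RECENTERING A DISC; short-medium; from VDG.VLP). `z0 = κ z (0, v0)`. For `w` in the left set: `‖w‖ ≤ C D z0 (κ z0 (0, w)) ≤ C s` (`inj` at `z0` with the times `0`; `zero`; `i = 0`, `f0`). `u = κ z0 (0, w)` is in `S`, `u.1 = z0.1 = z.1` (`bas`), `D z u ≤ D z z0 + D z0 u ≤ C ‖v0‖ + s ≤ e0` (`cmp`, `zero`): `ver`: `u = κ z (0, v)`, `‖v‖ ≤ C (C ‖v0‖ + s) ≤ 2 C² s ≤ ρ`. So `v ∈ BD`. The map `v ↦ w` is Lipschitz: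
`‖w1 - w2‖ ≤ C D (κ z0 (0, w1)) (κ z0 (0, w2)) = C D (κ z (0, v1)) (κ z (0, v2)) ≤ C² ‖v1 - v2‖` (`inj`, `cmp`): VLP. -/
def BDV_stmt : Prop := ∀ (m : ℕ) (c C e0 e1 : ℝ), 0 < c → 1 ≤ C → 0 < e0 → 0 < e1 → ∃ M : ℝ, 1 ≤ M ∧ ∀ (S : Set (P (m + 1))) (D : P (m + 1) → P (m + 1) → ℝ) (Φ : ℝ → P (m + 1) → P (m + 1)) (κ : P (m + 1) → Z m → P (m + 1)), SEC c C e0 e1 S D Φ κ →
  (∀ p q, 0 ≤ D p q ∧ D p p = 0 ∧ D p q = D q p) → (∀ p q r, D p r ≤ D p q + D q r) → (∀ p, Φ 0 p = p) → ∀ (z : P (m + 1)) (l : ℝ) (N : ℕ) (ρ s : ℝ) (v0 : W m), z ∈ S → 0 < s → ‖v0‖ ≤ s → M * s ≤ ρ → M * s ≤ 1 →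
    volume {w : W m | ‖w‖ ≤ e0 ∧ ∀ i ≤ N, D (Φ (i * l) (κ z (0, v0))) (Φ (i * l) (κ (κ z (0, v0)) (0, w))) ≤ s} ≤ ENNReal.ofReal M * volume (BD D Φ κ z l N ρ s v0)

/-- **Row DWT** (THE WEIGHT OF ONE CENTER; medium; from KUB, DCM, DPR, BDV, SGE, EFX, SEM, DPP, GLF). `s = R^(-1/2 + C1 z2)`, `l = nrm G y.2 ∈ [3/4, 5/4]`, `z = dir G y.2`, `z0 = κ z (0, v0)` (in the shell), `n0 = A.n R + 1` (`A.tu R = n0`), `a_j = Φ (j n0 l) z0`, `γ_j = (w j).1⁻¹ * y.1`. SGE with `K' = Metric.closedBall 0 r'`, `r' ≥ r0 + 1`, `K ⊆ K'`. By invariance `D (sc l (lft γ_j a_j)) (w j).2 ≤ 5 s` (`lft γ (sc l p) = sc l (lft γ p)`),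
so `lft γ_j a_j` is within `1` of `dir (w j).2 ∈ SK K'` (`d2` with `z = p = dir (w j).2`; `s1`, `s2`, `nl` as in DCM): `lft γ_j a_j ∈ SK K' G`. DPR (`gam = γ`): `1 ≤ K1 |det_j|` and `s^m ≤ K1^b (∏ |det_j|) volume {..}`, `det_j = det (Bx Φ (γ_(j+1) * γ_j⁻¹) (n0 l) (lft γ_j a_j))`, `γ_(j+1) * γ_j⁻¹ = (w (j+1)).1⁻¹ * (w j).1`. DCM with `5 s` (`M^(n0+1) 5 s ≤ 1` for large `R`, because `C A.e2 ≤ 1/10`, `C1 z2 ≤ 1/10`)
and KUB: `‖ub (w j) (w (j+1))‖² |det_j| ≤ M R^(2 d + C z2)`. Multiply: `(∏ ‖ub‖²) s^m ≤ (K1 M R^(2d + C z2))^b volume {..}`, BDV. (`EFL` and `GEO` with the same constant: both are monotone in `C`; only `GEO` for the constant of SGE is needed if DCM is applied with the maximum: enlarge.) -/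
def DWT_stmt : Prop := ∀ (m : ℕ) (Γ : Type) [Group Γ] [MulAction Γ (V (m + 1))] (K : Set (V (m + 1))) (r0 : ℝ) (χ : V (m + 1) → ℝ) (ch : ℝ → ℝ) (η : V (m + 1) → ℝ) (k : ℝ) (B : ℕ → ℕ → ℝ) (c C' e0 e1 C1 : ℝ), FdK Γ K → PU Γ r0 χ → CH ch → Ctf K η → 0 < c → 1 ≤ C' → 0 < e0 → 0 < e1 → 1 ≤ C1 →
  ∃ C : ℝ, 1 ≤ C ∧ ∀ (A : Par) (b : ℕ), Adm C A → 1 ≤ b → ∃ R0 : ℝ, 1 ≤ R0 ∧ ∀ (R : ℝ) (G : V (m + 1) → V (m + 1) →L[ℝ] V (m + 1)) (Φ : ℝ → P (m + 1) → P (m + 1)) (κ : P (m + 1) → Z m → P (m + 1)), R0 ≤ R → Cls Γ K k B G → IsFlow G Φ → SEC c C' e0 e1 (Shl G) (dP Γ η) Φ κ →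
    ∀ (w : ℕ → YS Γ (m + 1)) (v0 : W m), w 0 ∈ GW Γ G r0 (5 / 4) R → ‖v0‖ ≤ R ^ (-(1 / 2) + C1 * A.z2) →
      (∀ j ≤ b, w j ∈ GW Γ G r0 (3 / 2) R ∧ dP Γ η (sc (nrm G (w 0).2) (Φ (j * A.tu R * nrm G (w 0).2) (κ (dir G (w 0).2) (0, v0)))) (lft ((w 0).1⁻¹ * (w j).1) (w j).2) ≤ 5 * R ^ (-(1 / 2) + C1 * A.z2)) →
      ∏ j ∈ Finset.range b, ‖ub G Φ r0 χ ch A R (w j) (w (j + 1))‖ₑ ^ 2 ≤ ENNReal.ofReal (R ^ (2 * ((m : ℝ) + 1) * b + (m : ℝ) / 2 + C * b * A.z2)) *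
        volume (BD (dP Γ η) Φ κ (dir G (w 0).2) (nrm G (w 0).2) (b * (A.n R + 1)) (R ^ (-(1 / 2) + C * A.z2)) (R ^ (-(1 / 2) + C1 * A.z2)) v0)

/-- **Row QZC** (PURE; short-medium). Induction on `b` for all `c`, `y`, `Wt`, `N`, `M` fixed: `c * qZ (b+1) V y ≤ ∫⁻ y1, (c * M y y1 ^ 2) * qZ b V y1` (`lintegral_const_mul_le`), the induction hypothesis for `y1`, `c * M y y1 ^ 2`, `Wt k * 1_(N k 1) (y1)`, `N k (· + 1)` (chains `w` from `y1` are the tails of the chains from `y`), then `lintegral_finset_sum`, `lintegral_indicator`. -/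
def QZC_stmt : Prop := ∀ (Y ι : Type) [MeasurableSpace Y] (mu : Measure Y) (M : Y → Y → ENNReal) (V0 : Y → ENNReal) (E : Finset ι) (b : ℕ) (Wt : ι → ENNReal) (N : ι → ℕ → Set Y) (c : ENNReal) (y : Y), (∀ k j, MeasurableSet (N k j)) →
  (∀ w : ℕ → Y, w 0 = y → c * ((∏ j ∈ Finset.range b, M (w j) (w (j + 1)) ^ 2) * V0 (w b)) ≤ ∑ k ∈ E, Wt k * ∏ j ∈ Finset.range b, (N k (j + 1)).indicator (fun _ => (1 : ENNReal)) (w (j + 1))) →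
    c * qZ mu M b V0 y ≤ ∑ k ∈ E, Wt k * ∏ j ∈ Finset.range b, mu (N k (j + 1))

/-- **Row SPT** (FINITE MAXIMAL SEPARATED SETS; short; PURE). `s < δ v w ≤ L ‖v - w‖` for different points of a separated set, so they are at distance `> s/L` in the compact closed ball (`L > 0`, or at most one point): a finite bound for their number (finite cover by balls of radius `s/(2 L)`), take one with the maximal number of points. -/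
def SPT_stmt : Prop := ∀ (m : ℕ) (ρ s L : ℝ) (δ : W m → W m → ℝ), 0 < s → 0 ≤ L → (∀ v w, δ v w = δ w v) → (∀ v, δ v v = 0) → (∀ v w, ‖v‖ ≤ ρ → ‖w‖ ≤ ρ → δ v w ≤ L * ‖v - w‖) →
  ∃ E : Finset (W m), (∀ v ∈ E, ‖v‖ ≤ ρ) ∧ (∀ v ∈ E, ∀ w ∈ E, v ≠ w → s < δ v w) ∧ ∀ w, ‖w‖ ≤ ρ → ∃ v ∈ E, δ v w ≤ s

/-- **Row DOBR** (= helper93's `VDL.DOB_stmt`; medium-long; from DCN, DWT, QZC, SPT, UBR, VBY, EFX, DPP, GLF, GHL, GXH, DFD (Γ countable)). `C1` of DCN, then `C2` of DWT (with this `C1`), `s = R^(-1/2 + C1 z2)`, `ρ2 = R^(-1/2 + C2 z2)`, `l = nrm G y.2`, `z = dir G y.2` (in the shell), `N = b (A.n R + 1)`, `δ v v' = sup_(i ≤ N) D (Φ (i l) (κ z (0, v))) (Φ (i l) (κ z (0, v')))` (`Finset.sup'`), `≤ L ‖v - v'‖` for `‖v‖, ‖v'‖ ≤ e1` (EFL `gr`, `cmp`). SPT: `E` in the ball of radius `s`, `2 s`-separated.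
`BD v = BD D Φ κ z l N ρ2 s v`, `v ∈ E`: disjoint (a common point gives `δ ≤ 2 s`), closed, contained in the ball `R^(-1/2 + C z2)`. `N v j = {y' | D (sc l (Φ (j tu l) (κ z (0, v)))) (lft (y.1⁻¹ * y'.1) y'.2) ≤ 5 s}`: measurable (chart by chart closed), `mW (N v j) ≤ C (5 s)^(2 d)` (VBY for the index `(1, lft y.1 q)`, `q` = the first point; invariance, GLF). `V_v = ⨅ v' ∈ BD v, V1 (sc l (Φ (l b tu) (κ z (0, v'))))`,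
`Wt v = ofReal (R^(2 d b + m/2 + C2 b z2)) * volume (BD v) * V_v`. CHAIN INEQUALITY (QZC with `c = 1`): if the product of the kernels is not zero then all steps are `Reach` (UBR), DCN: `vc`, `‖vc‖ ≤ s`; `v ∈ E` with `δ v vc ≤ 2 s`: all `w j` are within `2 · 2 s + s = 5 s` (`s2`): `w j ∈ N v j`, DWT bounds the product. For `v' ∈ BD v`: `D (sc l (Φ .. v')) (lft (..) (w b).2) ≤ 2 s + 5 s ≤ R^(-1/3)`,
so `V0 (w b).2 ≤ V1 (lft (..)⁻¹ (sc l (Φ .. v'))) = V1 (sc l (Φ .. v'))`: `V0 (w b).2 ≤ V_v`. SUM: `Wt v ≤ ofReal (..) ∫_(BD v) V1 (..)`, the sum over `v ∈ E` is at most the integral over the ball (`lintegral_biUnion_finset`), times `(C (5 s)^(2 d))^b ≤ R^(-d b + 3 d C1 b z2)`. -/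
def DOBR_stmt : Prop := VDL.DOB_stmt

end

end Pool.Agent.VD
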